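import Mathlib
import Pool.Agent.H75.DH.Defs

set_option autoImplicit false

/-!
# Bounded-depth Frege systems with bounded bottom fan-in: definitions

See `Pool.Agent.H75.DH.Defs` for trees (read as AND formulas or OR formulas with alternating
connectives), lines (disjunctions of AND formulas), proofs and sizes. The gates of a line are
numbered by levels from above: the line itself is the gate at level 1, a tree of the line which is
not a literal is a gate at level 2, and so on. A line of depth at most `d` has gates at the levels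
`1, ..., d`; its bottom gates are the gates at level `d`.
-/

namespace Pool.Agent.H80.HS

open Pool.Agent.H75.DH

/-- `t` has height at most `h`, and the gates at the last level `h` of `t` (the root is at level
`1`) have at most `k` children (which are literals). -/
def Narrow (k : ℕ) : Tm → ℕ → Prop
  | .lit _, _ => True
  | .node n f, h => 1 ≤ h ∧ (h = 1 → n ≤ k) ∧ ∀ i, Narrow k (f i) (h - 1)

/-- `π` is a depth `d` refutation of `F` with bottom fan-in at most `k` (for `d ≥ 2`): the gates at
level `d` of its lines have at most `k` children. -/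
def RefutesN (F : Fml) (d k : ℕ) (π : List Line) : Prop :=
  Refutes F d π ∧ ∀ L ∈ π, ∀ t ∈ L, Narrow k t (d - 1)

/-- `F` is a CNF formula whose clauses have at most `w` literals. -/
def Cnf (w : ℕ) (F : Fml) : Prop := DepthLE 2 F ∧ ∀ L ∈ F, L.length ≤ w

/-- Depth `e` Frege is exponentially stronger, on 3-CNF formulas, than depth `d` Frege with small
bottom fan-in: there are unsatisfiable 3-CNF formulas `F n` of size polynomial in `n` with depth `e`
refutations of size polynomial in `n`, such that for some `ε > 0` and all large `n` every depth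
`d` refutation of `F n` with bottom fan-in at most `n ^ ε` has size at least `2 ^ (n ^ ε)`. -/
def StrongerThanNarrow (d e : ℕ) : Prop :=
  ∃ (F : ℕ → Fml) (c : ℕ) (ε : ℝ), 0 < ε ∧
    (∀ n, Cnf 3 (F n) ∧ Unsat (F n) ∧ psize (F n) ≤ n ^ c + c) ∧
    (∀ n, ∃ π, Refutes (F n) e π ∧ psize π ≤ n ^ c + c) ∧
    ∃ n₀ : ℕ, ∀ n ≥ n₀, ∀ (k : ℕ) (π : List Line), (k : ℝ) ≤ (n : ℝ) ^ ε →
      RefutesN (F n) d k π → (2 : ℝ) ^ ((n : ℝ) ^ ε) ≤ psize π

/-- Depth `e` Frege is exponentially stronger, on 3-CNF formulas, than depth `d - 1/2` Frege, that is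
depth `d` Frege with bottom fan-in at most the logarithm (base 2, rounded down) of the size of the
refutation: there are unsatisfiable 3-CNF formulas `F n` of size polynomial in `n` with depth `e`
refutations of size polynomial in `n`, such that for some `ε > 0` and all large `n` every depth
`d - 1/2` refutation of `F n` has size at least `2 ^ (n ^ ε)`. -/
def StrongerThanHalf (d e : ℕ) : Prop :=
  ∃ (F : ℕ → Fml) (c : ℕ) (ε : ℝ), 0 < ε ∧
    (∀ n, Cnf 3 (F n) ∧ Unsat (F n) ∧ psize (F n) ≤ n ^ c + c) ∧
    (∀ n, ∃ π, Refutes (F n) e π ∧ psize π ≤ n ^ c + c) ∧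
    ∃ n₀ : ℕ, ∀ n ≥ n₀, ∀ π, RefutesN (F n) d (Nat.log 2 (psize π)) π →
      (2 : ℝ) ^ ((n : ℝ) ^ ε) ≤ psize π

/-- Depth `e` Frege with bottom fan-in `k` is exponentially stronger than depth `d` Frege on CNF
formulas with clauses of at most `w` literals: there are such unsatisfiable `F n` of size polynomial
in `n` with depth `e` refutations of size polynomial in `n` and bottom fan-in at most `k`, such that
for some `ε > 0` and all large `n` every depth `d` refutation of `F n` has size at least
`2 ^ (n ^ ε)`. -/
def NarrowStronger (w k d e : ℕ) : Prop :=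
  ∃ (F : ℕ → Fml) (c : ℕ) (ε : ℝ), 0 < ε ∧
    (∀ n, Cnf w (F n) ∧ Unsat (F n) ∧ psize (F n) ≤ n ^ c + c) ∧
    (∀ n, ∃ π, RefutesN (F n) e k π ∧ psize π ≤ n ^ c + c) ∧
    ∃ n₀ : ℕ, ∀ n ≥ n₀, ∀ π, Refutes (F n) d π → (2 : ℝ) ^ ((n : ℝ) ^ ε) ≤ psize π

end Pool.Agent.H80.HS
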