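import Mathlib
import Pool.Agent.H80.HS.Defs
import Pool.Agent.H75.DH.Main

set_option autoImplicit false

/-!
Half steps: the translations (definitions only).
-/

namespace Pool.Agent.H80.HS

open Pool.Agent.H75.DH

/-! ### XOR -/

/-- The two gates for a literal of the variable `v = (2 v) + (2 v + 1)` (sum modulo 2): AND gates
whose disjunction is the literal (`b = true`), OR gates whose conjunction is the literal
(`b = false`). -/
def Xl (l : Lit) (b : Bool) : List Tm :=
  [Tm.mk [Tm.lit (2 * l.1, b), Tm.lit (2 * l.1 + 1, !l.2)],
   Tm.mk [Tm.lit (2 * l.1, !b), Tm.lit (2 * l.1 + 1, l.2)]]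

/-- the formulas for a tree -/
def X : Tm → Bool → List Tm
  | .lit l, b => Xl l b
  | .node _ f, b => [Tm.mk (List.ofFn fun i => X (f i) (!b)).flatten]

/-- translate a line -/
def XL (L : Line) : Line := L.flatMap fun t => X t true

/-- the clauses whose conjunction is the clause `L` with its variables replaced -/
def xorC : Line → List Line
  | [] => [[]]
  | t :: L => (X t false).flatMap fun k => (xorC L).map fun r => k.parts ++ r

/-- the formula with its variables replaced -/
def xorF (F : Fml) : Fml := F.flatMap xorC

/-! ### Restrictions -/

/-- The formulas for a literal under a restriction (`inl v`: the variable gets the value `v`; `inr x`: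
it is replaced by the literal `x`). `Tm.mk []` is the constant which makes the parent constant:
true in an OR gate (`b = true`), false in an AND gate (`b = false`). -/
def Rl (τ : ℕ → Bool ⊕ Lit) (l : Lit) (b : Bool) : List Tm :=
  match τ l.1 with
  | Sum.inl v => if (v == l.2) = b then [Tm.mk []] else []
  | Sum.inr x => [Tm.lit (x.1, x.2 == l.2)]

open Classical in
/-- the formulas for a tree under a restriction, to be spliced into the parent -/
noncomputable def R (τ : ℕ → Bool ⊕ Lit) : Tm → Bool → List Tm
  | .lit l, b => Rl τ l b
  | .node _ f, b =>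
    if Tm.mk [] ∈ (List.ofFn fun i => R τ (f i) (!b)).flatten then []
    else [Tm.mk (List.ofFn fun i => R τ (f i) (!b)).flatten.dedup]

/-- restrict a line -/
noncomputable def RL (τ : ℕ → Bool ⊕ Lit) (L : Line) : Line := L.flatMap fun t => R τ t true

/-- The restrictions for XOR: `ω v` says which of the variables `2 v`, `2 v + 1` is fixed, and its
value. The other variable becomes `v` or its negation. -/
def tau (ω : ℕ → Bool × Bool) (y : ℕ) : Bool ⊕ Lit :=
  if decide (y % 2 = 1) = (ω (y / 2)).1 then Sum.inl (ω (y / 2)).2
  else Sum.inr (y / 2, !(ω (y / 2)).2)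

/-- all gates of a tree: `true` for AND gates; and the list of the literals among the children -/
def gts : Tm → Bool → List (Bool × List Lit)
  | .lit _, _ => []
  | .node _ f, b => (b, lits (List.ofFn f)) :: (List.ofFn fun i => gts (f i) (!b)).flatten

/-- the gate gets a child that makes it constant -/
def Kills (τ : ℕ → Bool ⊕ Lit) (g : Bool × List Lit) : Prop :=
  ∃ y ∈ g.2, ∃ v, τ y.1 = Sum.inl v ∧ (v == y.2) = !g.1

/-- the number of variables `v` of the literals -/
def nv (ys : List Lit) : ℕ := (ys.map fun y => y.1 / 2).toFinset.card

end Pool.Agent.H80.HS
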