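import Mathlib
import Pool.Agent.H80.HS.Basic

set_option autoImplicit false

/-!
Half steps: distributing gates with few literals, auxiliary derivations.
-/

namespace Pool.Agent.H80.HS

open Pool.Agent.H75.DH

/-- the conjunctions whose disjunction is a literal -/
def cl (σ : ℕ → ℕ ⊕ List Lit) (l : Lit) : List (List Lit) :=
  match σ l.1 with
  | Sum.inl v => [[(v, l.2)]]
  | Sum.inr xs => if l.2 = true then [xs] else xs.map fun a => [negl a]

/-- the conjunctions whose disjunction is the conjunction of the literals -/
def ch (σ : ℕ → ℕ ⊕ List Lit) : List Lit → List (List Lit)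
  | [] => [[]]
  | x :: xs => (cl σ x).flatMap fun c => (ch σ xs).map fun r => c ++ r

section

variable (σ : ℕ → ℕ ⊕ List Lit)

theorem cl_inl {w v : ℕ} (h : σ w = Sum.inl v) (s : Bool) : cl σ (w, s) = [[(v, s)]] := by
  simp only [cl, h]

theorem cl_inr {w : ℕ} {xs : List Lit} (h : σ w = Sum.inr xs) (s : Bool) :
    cl σ (w, s) = if s = true then [xs] else xs.map fun a => [negl a] := by
  simp only [cl, h]

theorem mem_ch_cons {x : Lit} {xs : List Lit} {r : List Lit} :
    r ∈ ch σ (x :: xs) ↔ ∃ c ∈ cl σ x, ∃ r' ∈ ch σ xs, c ++ r' = r := by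
  simp [ch, List.mem_flatMap, List.mem_map]

theorem length_cl {m : ℕ} (hm : ∀ w l, σ w = Sum.inr l → l.length ≤ m) (x : Lit) :
    (cl σ x).length ≤ m + 1 := by
  obtain ⟨w, s⟩ := x
  cases h : σ w with
  | inl v => rw [cl_inl σ h]; simp
  | inr l =>
    have := hm w l h
    rw [cl_inr σ h]
    cases s
    · simp only [Bool.false_eq_true, if_false, List.length_map]; omega
    · simp

theorem length_of_mem_cl {m : ℕ} (hm : ∀ w l, σ w = Sum.inr l → l.length ≤ m) {x : Lit}
    {c : List Lit} (hc : c ∈ cl σ x) : c.length ≤ m + 1 := by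
  obtain ⟨w, s⟩ := x
  cases h : σ w with
  | inl v =>
    rw [cl_inl σ h, List.mem_singleton] at hc
    subst hc
    simp
  | inr l =>
    have := hm w l h
    rw [cl_inr σ h] at hc
    cases s
    · simp only [Bool.false_eq_true, if_false, List.mem_map] at hc
      obtain ⟨a, _, rfl⟩ := hc
      simp
    · simp only [if_true, List.mem_singleton] at hc
      subst hc
      omega

theorem length_ch {m : ℕ} (hm : ∀ w l, σ w = Sum.inr l → l.length ≤ m) (xs : List Lit) :
    (ch σ xs).length ≤ (m + 1) ^ xs.length := by
  induction xs with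
  | nil => simp [ch]
  | cons x xs ih =>
    rw [ch, List.length_flatMap]
    simp only [List.length_map, List.map_const', List.sum_replicate, smul_eq_mul, List.length_cons]
    calc (cl σ x).length * (ch σ xs).length ≤ (m + 1) * (m + 1) ^ xs.length :=
          Nat.mul_le_mul (length_cl σ hm x) ih
      _ = (m + 1) ^ (xs.length + 1) := by rw [pow_succ, mul_comm]

theorem length_of_mem_ch {m : ℕ} (hm : ∀ w l, σ w = Sum.inr l → l.length ≤ m) (xs : List Lit) :
    ∀ r ∈ ch σ xs, r.length ≤ xs.length * (m + 1) := by
  induction xs with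
  | nil => intro r hr; simp [ch] at hr; simp [hr]
  | cons x xs ih =>
    intro r hr
    rw [mem_ch_cons] at hr
    obtain ⟨c, hc, r', hr', rfl⟩ := hr
    have h1 := length_of_mem_cl σ hm hc
    have h2 := ih r' hr'
    rw [List.length_append, List.length_cons, Nat.add_mul, Nat.one_mul]
    omega

theorem lsize_Ul {m : ℕ} (hm : ∀ w l, σ w = Sum.inr l → l.length ≤ m) (x : Lit) (b : Bool) :
    lsize (Ul σ x b) ≤ m + 1 := by
  have := lsize_U σ hm (.lit x) b
  rw [U_lit, Tm.size_lit] at this
  omega

theorem ht_Ul (x : Lit) (b : Bool) : ∀ u ∈ Ul σ x b, u.ht ≤ 1 := by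
  intro u hu
  have := ht_U σ (.lit x) b u (by rw [U_lit]; exact hu)
  rw [Tm.ht_lit] at this
  omega

theorem Ul_negl (x : Lit) (b : Bool) : Ul σ (negl x) b = (Ul σ x (!b)).map Tm.neg := by
  have := U_neg σ (.lit x) b
  rw [Tm.neg_lit, U_lit, U_lit] at this
  exact this

end

theorem ht_map_lit (xs : List Lit) : ∀ t ∈ xs.map Tm.lit, t.ht = 0 := by
  intro t ht
  rw [List.mem_map] at ht
  obtain ⟨l, _, rfl⟩ := ht
  rfl

theorem ht_mk_lits (xs : List Lit) : (Tm.mk (xs.map Tm.lit)).ht ≤ 1 := by
  have := Tm.ht_mk_le (b := 0) fun t ht => (ht_map_lit xs t ht).le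
  omega

/-- Cutting away a list of formulas. -/
theorem cutsT {F : Fml} {d : ℕ} {X : Line} (hX : ∀ t ∈ X, t.ht < d) :
    ∀ (ts : List Tm) (π : List Line), IsProof F d π → (∀ t ∈ ts, t.ht < d) → Has π (ts ++ X) →
      (∀ t ∈ ts, Has π (t.neg.parts ++ X)) →
      ∃ δ, IsProof F d (δ ++ π) ∧ Has (δ ++ π) X ∧
        psize δ ≤ ts.length * (1 + lsize ts + lsize X) := by
  intro ts
  induction ts with
  | nil =>
    intro π h1 _ h2 _
    exact ⟨[], h1, by simpa using h2, by simp [psize]⟩
  | cons t ts ih =>
    intro π h1 h0 h2 h3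
    have hM : Step F π (ts ++ X) := by
      refine Step.cut t (by simpa using h2) ?_
      refine (h3 t (by simp)).mono ?_
      intro u hu
      rw [List.mem_append] at hu
      rcases hu with hu | hu
      · exact List.mem_append_left _ hu
      · exact List.mem_append_right _ (List.mem_append_right _ hu)
    have hMh : ∀ u ∈ ts ++ X, u.ht < d := by
      intro u hu
      rw [List.mem_append] at hu
      rcases hu with hu | hu
      · exact h0 u (List.mem_cons_of_mem _ hu)
      · exact hX u hu
    obtain ⟨δ, g1, g2, g3⟩ := ih ((ts ++ X) :: π) ⟨h1, hM, hMh⟩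
      (fun u hu => h0 u (List.mem_cons_of_mem _ hu)) (Has.head _ _)
      fun y hy => (h3 y (by simp [hy])).cons _
    refine ⟨δ ++ [ts ++ X], by simpa using g1, by simpa using g2, ?_⟩
    rw [psize_append, psize_cons, psize_nil, lsize_append, List.length_cons, lsize_cons]
    have : ts.length * (1 + lsize ts + lsize X) ≤ ts.length * (1 + (t.size + lsize ts) + lsize X) :=
      Nat.mul_le_mul_left _ (by omega)
    have e : (ts.length + 1) * (1 + (t.size + lsize ts) + lsize X) =
        ts.length * (1 + (t.size + lsize ts) + lsize X) + (1 + (t.size + lsize ts) + lsize X) := by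
      ring
    omega

/-- From a conjunction to one of its members. -/
theorem inv {F : Fml} {d : ℕ} {Y : Line} (hY : ∀ t ∈ Y, t.ht < d + 1) (l : List Lit) {a : Lit}
    (ha : a ∈ l) {π : List Line} (hπ : IsProof F (d + 1) π)
    (h : Has π (Tm.mk (l.map Tm.lit) :: Y)) :
    ∃ δ, IsProof F (d + 1) (δ ++ π) ∧ Has (δ ++ π) (Tm.lit a :: Y) ∧
      psize δ ≤ 2 * (l.length + 2 + lsize Y) := by
  have hxX : ∀ t ∈ Tm.lit a :: Y, t.ht < d + 1 := by
    intro t ht
    rw [List.mem_cons] at ht
    rcases ht with rfl | ht
    · rw [Tm.ht_lit]; omega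
    · exact hY t ht
  set A : Line := (l.map negl).map Tm.lit ++ Tm.lit a :: Y with hA
  have hAx : Tm.lit a ∈ A := List.mem_append_right _ List.mem_cons_self
  have hAn : Tm.lit (negl a) ∈ A :=
    List.mem_append_left _ (List.mem_map_of_mem (List.mem_map_of_mem ha))
  have hAs : Step F π A := by
    obtain ⟨v, s⟩ := a
    cases s
    · exact Step.ax v hAn hAx
    · exact Step.ax v hAx hAn
  have hAh : ∀ t ∈ A, t.ht < d + 1 := by
    intro t ht
    rw [hA, List.mem_append] at ht
    rcases ht with ht | ht
    · rw [ht_map_lit _ t ht]; omega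
    · exact hxX t ht
  have hp1 := isProof_cons hπ hAs hAh
  have hs2 : Step F (A :: π) (Tm.lit a :: Y) := by
    refine Step.cut (Tm.mk (l.map Tm.lit)) ((h.mono ?_).cons A) ?_
    · intro t ht
      rw [List.mem_cons] at ht
      rcases ht with rfl | ht
      · exact List.mem_cons_self
      · exact List.mem_cons_of_mem _ (List.mem_cons_of_mem _ ht)
    · rw [Tm.parts_neg_mk, map_lit_neg]
      exact Has.head _ _
  refine ⟨[Tm.lit a :: Y, A], isProof_cons hp1 hs2 hxX, Has.head _ _, ?_⟩
  rw [psize_cons, psize_cons, psize_nil, hA, lsize_append, lsize_lits,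
    List.length_map, lsize_cons, Tm.size_lit]
  omega

/-- the negated literals, translated -/
def NU (σ : ℕ → ℕ ⊕ List Lit) (xs : List Lit) : Line := xs.flatMap fun x => Ul σ (negl x) true

theorem NU_cons (σ : ℕ → ℕ ⊕ List Lit) (x : Lit) (xs : List Lit) :
    NU σ (x :: xs) = Ul σ (negl x) true ++ NU σ xs := by
  simp [NU]

theorem lsize_NU (σ : ℕ → ℕ ⊕ List Lit) {m : ℕ} (hm : ∀ w l, σ w = Sum.inr l → l.length ≤ m)
    (xs : List Lit) : lsize (NU σ xs) ≤ xs.length * (m + 1) := by
  induction xs with
  | nil => simp [NU, lsize_nil]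
  | cons x xs ih =>
    rw [NU_cons, lsize_append, List.length_cons, Nat.add_mul, Nat.one_mul]
    have := lsize_Ul σ hm (negl x) true
    omega

theorem ht_NU (σ : ℕ → ℕ ⊕ List Lit) (xs : List Lit) : ∀ t ∈ NU σ xs, t.ht ≤ 1 := by
  intro t ht
  rw [NU, List.mem_flatMap] at ht
  obtain ⟨x, _, hx⟩ := ht
  exact ht_Ul σ _ _ t hx

/-- From the disjunction of the negated literals to the negation of one choice. -/
theorem invCh (σ : ℕ → ℕ ⊕ List Lit) {F : Fml} {d m : ℕ} (hd : 1 ≤ d)
    (hm : ∀ w l, σ w = Sum.inr l → l.length ≤ m) :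
    ∀ (xs : List Lit) (Y : Line) (π : List Line), (∀ t ∈ Y, t.ht < d + 1) →
      IsProof F (d + 1) π → Has π (NU σ xs ++ Y) → ∀ r ∈ ch σ xs,
      ∃ δ, IsProof F (d + 1) (δ ++ π) ∧ Has (δ ++ π) ((r.map negl).map Tm.lit ++ Y) ∧
        psize δ ≤ 2 * xs.length * (m + 2 + xs.length * (m + 1) + lsize Y) := by
  intro xs
  induction xs with
  | nil =>
    intro Y π _ hπ h r hr
    simp only [ch, List.mem_singleton] at hr
    subst hr
    exact ⟨[], hπ, by simpa [NU] using h, by simp [psize]⟩
  | cons x xs ih =>
    intro Y π hY hπ h r hr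
    rw [mem_ch_cons] at hr
    obtain ⟨c, hc, r', hr', rfl⟩ := hr
    rw [NU_cons] at h
    have hcl := length_of_mem_cl σ hm hc
    -- first transform the part of `x`
    have key : ∃ δ, IsProof F (d + 1) (δ ++ π) ∧
        Has (δ ++ π) (NU σ xs ++ ((c.map negl).map Tm.lit ++ Y)) ∧
        psize δ ≤ 2 * (m + 2 + (xs.length + 1) * (m + 1) + lsize Y) := by
      obtain ⟨w, s⟩ := x
      have easy : Ul σ (negl (w, s)) true = (c.map negl).map Tm.lit → ∃ δ, IsProof F (d + 1) (δ ++ π) ∧
          Has (δ ++ π) (NU σ xs ++ ((c.map negl).map Tm.lit ++ Y)) ∧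
          psize δ ≤ 2 * (m + 2 + (xs.length + 1) * (m + 1) + lsize Y) := by
        intro he
        rw [he] at h
        refine ⟨[], hπ, ?_, by simp [psize]⟩
        refine h.mono ?_
        intro t ht
        simp only [List.mem_append] at ht ⊢
        tauto
      cases hσ : σ w with
      | inl v =>
        rw [cl_inl σ hσ, List.mem_singleton] at hc
        apply easy
        subst hc
        show Ul σ (w, !s) true = _
        rw [Ul_inl σ hσ]
        rfl
      | inr l =>
        rw [cl_inr σ hσ] at hc
        cases s
        · simp only [Bool.false_eq_true, if_false, List.mem_map] at hc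
          obtain ⟨a, ha, rfl⟩ := hc
          have he : Ul σ (negl (w, false)) true = [Tm.mk (l.map Tm.lit)] := by
            show Ul σ (w, true) true = _
            rw [Ul_inr σ hσ, if_pos rfl, sgn_true]
          rw [he] at h
          have hY' : ∀ t ∈ NU σ xs ++ Y, t.ht < d + 1 := by
            intro t ht
            rw [List.mem_append] at ht
            rcases ht with ht | ht
            · have := ht_NU σ xs t ht; omega
            · exact hY t ht
          obtain ⟨δ, g1, g2, g3⟩ := inv (F := F) hY' l ha hπ (h.mono (by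
            intro t ht
            simp only [List.mem_append, List.mem_cons, List.mem_singleton,
              List.not_mem_nil, or_false] at ht ⊢
            tauto))
          refine ⟨δ, g1, g2.mono ?_, g3.trans ?_⟩
          · intro t ht
            simp only [List.map_cons, List.map_nil, negl_negl, List.mem_append,
              List.mem_cons, List.not_mem_nil, or_false] at ht ⊢
            tauto
          · have h1 := hm w l hσ
            have h2 := lsize_NU σ hm xs
            rw [lsize_append]
            have e : (xs.length + 1) * (m + 1) = xs.length * (m + 1) + (m + 1) := by ring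
            omega
        · simp only [if_true, List.mem_singleton] at hc
          apply easy
          subst hc
          show Ul σ (w, false) true = _
          rw [Ul_inr σ hσ, if_neg (by simp), sgn_false]
    obtain ⟨δ, g1, g2, g3⟩ := key
    have hY' : ∀ t ∈ (c.map negl).map Tm.lit ++ Y, t.ht < d + 1 := by
      intro t ht
      rw [List.mem_append] at ht
      rcases ht with ht | ht
      · rw [ht_map_lit _ t ht]; omega
      · exact hY t ht
    obtain ⟨δ', k1, k2, k3⟩ := ih _ _ hY' g1 g2 r' hr'
    refine ⟨δ' ++ δ, by rw [List.append_assoc]; exact k1, ?_, ?_⟩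
    · rw [List.append_assoc]
      refine k2.mono ?_
      intro t ht
      simp only [List.map_append, List.mem_append] at ht ⊢
      tauto
    · rw [psize_append, List.length_cons]
      rw [lsize_append, lsize_lits, List.length_map] at k3
      have a1 : m + 2 + xs.length * (m + 1) + (c.length + lsize Y) ≤
          m + 2 + (xs.length + 1) * (m + 1) + lsize Y := by
        have e : (xs.length + 1) * (m + 1) = xs.length * (m + 1) + (m + 1) := by ring
        omega
      have a2 : 2 * xs.length * (m + 2 + xs.length * (m + 1) + (c.length + lsize Y)) ≤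
          2 * xs.length * (m + 2 + (xs.length + 1) * (m + 1) + lsize Y) :=
        Nat.mul_le_mul_left _ a1
      have e : 2 * (xs.length + 1) * (m + 2 + (xs.length + 1) * (m + 1) + lsize Y) =
          2 * xs.length * (m + 2 + (xs.length + 1) * (m + 1) + lsize Y) +
            2 * (m + 2 + (xs.length + 1) * (m + 1) + lsize Y) := by ring
      omega

/-- Introduction of a distributed conjunction. -/
theorem andCh (σ : ℕ → ℕ ⊕ List Lit) {F : Fml} {d m : ℕ}
    (hm : ∀ w l, σ w = Sum.inr l → l.length ≤ m) {Γ : Line} (hΓ : ∀ t ∈ Γ, t.ht < d + 1) :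
    ∀ (xs p : List Lit) (π : List Line), IsProof F (d + 1) π →
      (∀ r ∈ ch σ xs, Tm.mk ((p ++ r).map Tm.lit) ∈ Γ) →
      (∀ x ∈ xs, Has π (Ul σ x true ++ Γ)) →
      ∃ δ, IsProof F (d + 1) (δ ++ π) ∧ Has (δ ++ π) ((p.map negl).map Tm.lit ++ Γ) ∧
        psize δ ≤ (m + 2) ^ xs.length * ((p.length + xs.length * (m + 1) + m + 3) *
          (p.length + xs.length * (m + 1) + m + 3 + lsize Γ)) := by
  intro xs
  induction xs with
  | nil =>
    intro p π hπ h1 _
    have hG : ∀ t ∈ (p.map negl).map Tm.lit ++ Γ, t.ht < d + 1 := by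
      intro t ht
      rw [List.mem_append] at ht
      rcases ht with ht | ht
      · rw [ht_map_lit _ t ht]; omega
      · exact hΓ t ht
    have hp := h1 [] (by simp [ch])
    rw [List.append_nil] at hp
    obtain ⟨δ, g1, g2, g3⟩ := axStep (F := F) hG p (List.mem_append_right _ hp)
      (fun x hx => List.mem_append_left _ (List.mem_map_of_mem (List.mem_map_of_mem hx))) π hπ
    refine ⟨δ, g1, g2, g3.trans ?_⟩
    rw [lsize_append, lsize_lits, List.length_map, List.length_nil, pow_zero, one_mul, zero_mul]
    exact Nat.mul_le_mul (by omega) (by omega)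
  | cons x xs ih =>
    intro p π hπ h1 h2
    set q := p.length + (x :: xs).length * (m + 1) + m + 3 with hq
    set c0 := q * (q + lsize Γ) with hc0
    have hqe : q = p.length + (xs.length * (m + 1) + (m + 1)) + m + 3 := by
      rw [hq, List.length_cons]; ring
    set G : Line := (p.map negl).map Tm.lit ++ Γ with hGdef
    have hG : ∀ t ∈ G, t.ht < d + 1 := by
      intro t ht
      rw [hGdef, List.mem_append] at ht
      rcases ht with ht | ht
      · rw [ht_map_lit _ t ht]; omega
      · exact hΓ t ht
    have hGs : lsize G = p.length + lsize Γ := by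
      rw [hGdef, lsize_append, lsize_lits, List.length_map]
    obtain ⟨δ, g1, g2, g3⟩ := reach_all (F := F) (d := d + 1) (B := (m + 2) ^ xs.length * c0)
      ((cl σ x).map fun c => ((p ++ c).map negl).map Tm.lit ++ Γ) π hπ (by
        intro Y hY δ hδ
        rw [List.mem_map] at hY
        obtain ⟨c, hc, rfl⟩ := hY
        obtain ⟨δ', k1, k2, k3⟩ := ih (p ++ c) (δ ++ π) hδ
          (fun r hr => by
            rw [List.append_assoc]
            exact h1 _ ((mem_ch_cons σ).2 ⟨c, hc, r, hr, rfl⟩))
          (fun y hy => (h2 y (List.mem_cons_of_mem _ hy)).ext δ)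
        refine ⟨δ', k1, k2, k3.trans (Nat.mul_le_mul_left _ ?_)⟩
        have hcl := length_of_mem_cl σ hm hc
        have a1 : (p ++ c).length + xs.length * (m + 1) + m + 3 ≤ q := by
          rw [List.length_append, hqe]; omega
        exact Nat.mul_le_mul a1 (by omega))
    rw [List.length_map] at g3
    have hfin : ∃ δ', IsProof F (d + 1) (δ' ++ (δ ++ π)) ∧ Has (δ' ++ (δ ++ π)) G ∧
        psize δ' ≤ c0 := by
      have hc01 : 1 + lsize G ≤ c0 := by
        rw [hGs, hc0]
        have : 1 * (q + lsize Γ) ≤ q * (q + lsize Γ) := Nat.mul_le_mul_right _ (by omega)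
        omega
      have hprem := (h2 x (by simp)).ext δ
      have hY : ∀ c ∈ cl σ x, Has (δ ++ π) (((p ++ c).map negl).map Tm.lit ++ Γ) := fun c hc =>
        g2 _ (List.mem_map_of_mem (f := fun c => ((p ++ c).map negl).map Tm.lit ++ Γ) hc)
      obtain ⟨w, s⟩ := x
      cases hσ : σ w with
      | inl v =>
        rw [Ul_inl σ hσ] at hprem
        rw [cl_inl σ hσ] at hY
        have hY' := hY [(v, s)] (by simp)
        refine ⟨[G], isProof_cons g1 (Step.cut (Tm.lit (v, s)) (hprem.mono ?_) (hY'.mono ?_)) hG,
          Has.head _ _, ?_⟩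
        · intro t ht
          simp only [hGdef, List.mem_append, List.mem_cons, List.not_mem_nil, or_false] at ht ⊢
          tauto
        · intro t ht
          simp only [hGdef, Tm.neg_lit, Tm.parts_lit, List.map_append, List.map_cons, List.map_nil,
            List.mem_append, List.mem_cons, List.not_mem_nil, or_false] at ht ⊢
          tauto
        · rw [psize_cons, psize_nil]; omega
      | inr l =>
        have hl := hm w l hσ
        rw [Ul_inr σ hσ] at hprem
        rw [cl_inr σ hσ] at hY
        cases s
        · rw [if_neg (by simp), sgn_false] at hprem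
          simp only [Bool.false_eq_true, if_false] at hY
          obtain ⟨δ', k1, k2, k3⟩ := cuts (F := F) hG (by omega) (l.map negl) (δ ++ π) g1
            (hprem.mono (by
              intro t ht
              simp only [hGdef, List.mem_append] at ht ⊢
              tauto))
            (by
              intro y hy
              rw [List.mem_map] at hy
              obtain ⟨a, ha, rfl⟩ := hy
              rw [negl_negl]
              refine (hY [negl a] (List.mem_map_of_mem (f := fun a => [negl a]) ha)).mono ?_
              intro t ht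
              simp only [hGdef, List.map_append, List.map_cons, List.map_nil, negl_negl,
                List.mem_append, List.mem_cons, List.not_mem_nil, or_false] at ht ⊢
              tauto)
          refine ⟨δ', k1, k2, k3.trans ?_⟩
          rw [List.length_map, hGs, hc0]
          exact Nat.mul_le_mul (by omega) (by omega)
        · rw [if_pos rfl, sgn_true] at hprem
          simp only [if_true] at hY
          have hY' := hY l (by simp)
          refine ⟨[G], isProof_cons g1 (Step.cut (Tm.mk (l.map Tm.lit)) (hprem.mono ?_)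
            (hY'.mono ?_)) hG, Has.head _ _, ?_⟩
          · intro t ht
            simp only [hGdef, List.mem_append, List.mem_cons, List.not_mem_nil, or_false] at ht ⊢
            tauto
          · intro t ht
            rw [Tm.parts_neg_mk, map_lit_neg]
            simp only [hGdef, List.map_append, List.mem_append] at ht ⊢
            tauto
          · rw [psize_cons, psize_nil]; omega
    obtain ⟨δ', k1, k2, k3⟩ := hfin
    refine ⟨δ' ++ δ, by rw [List.append_assoc]; exact k1, by rw [List.append_assoc]; exact k2, ?_⟩
    rw [psize_append, List.length_cons, pow_succ]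
    have hcl := length_cl σ hm x
    have a1 : (cl σ x).length * ((m + 2) ^ xs.length * c0) ≤ (m + 1) * ((m + 2) ^ xs.length * c0) :=
      Nat.mul_le_mul_right _ hcl
    have a2 : c0 ≤ (m + 2) ^ xs.length * c0 := Nat.le_mul_of_pos_left _ (by positivity)
    have e : (m + 2) ^ xs.length * (m + 2) * c0 =
        (m + 1) * ((m + 2) ^ xs.length * c0) + (m + 2) ^ xs.length * c0 := by ring
    rw [e]
    omega

end Pool.Agent.H80.HS
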