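import Mathlib
import Pool.Agent.H80.HS.Ch

set_option autoImplicit false

/-!
Half steps: substituting conjunctions for variables and distributing the gates with few literals
keeps the depth.
-/

namespace Pool.Agent.H80.HS

open Pool.Agent.H75.DH

/-- the formulas for a gate whose children are the literals `xs`, distributed -/
def Wf (σ : ℕ → ℕ ⊕ List Lit) (xs : List Lit) (b : Bool) : List Tm :=
  if b = true then (ch σ xs).map fun r => Tm.mk (r.map Tm.lit)
  else (ch σ (xs.map negl)).map fun r => Tm.mk ((r.map negl).map Tm.lit)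

/-- the formulas for a tree -/
def W (σ : ℕ → ℕ ⊕ List Lit) (k : ℕ) : Tm → Bool → List Tm
  | .lit l, b => Ul σ l b
  | .node n f, b =>
    if n ≤ k ∧ ∀ i, (f i).isLit = true then Wf σ (lits (List.ofFn f)) b
    else [Tm.mk (List.ofFn fun i => W σ k (f i) (!b)).flatten]

section

variable (σ : ℕ → ℕ ⊕ List Lit) (k : ℕ)

theorem W_lit (l : Lit) (b : Bool) : W σ k (.lit l) b = Ul σ l b := rfl

theorem W_flat {n : ℕ} {f : Fin n → Tm} (h : n ≤ k ∧ ∀ i, (f i).isLit = true) (b : Bool) :
    W σ k (.node n f) b = Wf σ (lits (List.ofFn f)) b := by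
  rw [W, if_pos h]

theorem W_node {n : ℕ} {f : Fin n → Tm} (h : ¬ (n ≤ k ∧ ∀ i, (f i).isLit = true)) (b : Bool) :
    W σ k (.node n f) b = [Tm.mk (List.ofFn fun i => W σ k (f i) (!b)).flatten] := by
  rw [W, if_neg h]

theorem Wf_neg (xs : List Lit) (b : Bool) :
    Wf σ (xs.map negl) b = (Wf σ xs (!b)).map Tm.neg := by
  cases b
  · simp only [Wf, Bool.false_eq_true, if_false, Bool.not_false, if_true, List.map_map]
    rw [show (negl ∘ negl) = id by funext l; exact negl_negl l, List.map_id]
    refine List.map_congr_left fun r _ => ?_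
    simp only [Function.comp]
    rw [Tm.neg_mk, map_lit_neg, List.map_map]
  · simp only [Wf, if_true, Bool.not_true, Bool.false_eq_true, if_false, List.map_map]
    refine List.map_congr_left fun r _ => ?_
    simp only [Function.comp]
    rw [Tm.neg_mk, List.map_map]
    congr 1
    refine List.map_congr_left fun l _ => ?_
    simp

theorem W_neg (t : Tm) (b : Bool) : W σ k t.neg b = (W σ k t (!b)).map Tm.neg := by
  induction t generalizing b with
  | lit l => rw [Tm.neg_lit, W_lit, W_lit, Ul_negl]
  | node n f ih =>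
    rw [Tm.neg_node]
    by_cases h : n ≤ k ∧ ∀ i, (f i).isLit = true
    · rw [W_flat σ k h, W_flat σ k ⟨h.1, fun i => by rw [Tm.isLit_neg]; exact h.2 i⟩]
      have e : (List.ofFn fun i => (f i).neg) = (List.ofFn f).map Tm.neg := by
        rw [List.map_ofFn]; rfl
      rw [e, lits_map_neg, Wf_neg]
    · rw [W_node σ k h, W_node σ k (fun h' => h ⟨h'.1, fun i => by
        rw [← Tm.isLit_neg]; exact h'.2 i⟩), List.map_cons, List.map_nil, Tm.neg_mk,
        List.map_flatten, List.map_ofFn]
      congr 3
      congr 1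
      funext i
      exact ih i _

theorem ht_Wf (xs : List Lit) (b : Bool) : ∀ u ∈ Wf σ xs b, u.ht ≤ 1 := by
  intro u hu
  rw [Wf] at hu
  split at hu <;> rw [List.mem_map] at hu <;> obtain ⟨r, _, rfl⟩ := hu <;> exact ht_mk_lits _

theorem ht_W (t : Tm) (b : Bool) (h : ℕ) (h1 : 1 ≤ h) (ht : Narrow k t h) :
    ∀ u ∈ W σ k t b, u.ht ≤ h := by
  induction t generalizing b h with
  | lit l =>
    intro u hu
    have := ht_Ul σ l b u hu
    omega
  | node n f ih =>
    intro u hu
    by_cases hf : n ≤ k ∧ ∀ i, (f i).isLit = true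
    · rw [W_flat σ k hf] at hu
      have := ht_Wf σ _ _ u hu
      omega
    · rw [W_node σ k hf, List.mem_singleton] at hu
      obtain ⟨_, g2, g3⟩ := ht
      have h2 : 2 ≤ h := by
        by_contra hc
        have h3 : h = 1 := by omega
        refine hf ⟨g2 h3, fun i => ?_⟩
        have := g3 i
        cases hfi : f i with
        | lit l => rfl
        | node n' f' =>
          rw [hfi, h3] at this
          have := this.1
          omega
      subst hu
      have := Tm.ht_mk_le (b := h - 1) (L := (List.ofFn fun i => W σ k (f i) (!b)).flatten) (by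
        intro v hv
        rw [List.mem_flatten] at hv
        obtain ⟨l, hl, hv⟩ := hv
        rw [List.mem_ofFn] at hl
        obtain ⟨i, rfl⟩ := hl
        exact ih i _ (h - 1) (by omega) (g3 i) v hv)
      omega

/-- the size bound for one gate -/
def BB (m k : ℕ) : ℕ := (m + 2) ^ (k + 1) * (1 + k * (m + 1))

theorem BB_ge (m k : ℕ) : k * (m + 1) + m + 2 ≤ BB m k := by
  have h1 : (m + 2) ^ 1 ≤ (m + 2) ^ (k + 1) := Nat.pow_le_pow_right (by omega) (by omega)
  have h2 : (m + 2) * (1 + k * (m + 1)) ≤ BB m k := by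
    rw [BB]
    exact Nat.mul_le_mul_right _ (by simpa using h1)
  have h3 : (m + 2) * (1 + k * (m + 1)) = (m + 2) + (m + 2) * (k * (m + 1)) := by ring
  have h4 : 1 * (k * (m + 1)) ≤ (m + 2) * (k * (m + 1)) := Nat.mul_le_mul_right _ (by omega)
  omega

theorem pow_le_BB (m k : ℕ) : (m + 2) ^ k ≤ BB m k := by
  have h1 : (m + 2) ^ k ≤ (m + 2) ^ (k + 1) := Nat.pow_le_pow_right (by omega) (by omega)
  calc (m + 2) ^ k ≤ (m + 2) ^ (k + 1) * 1 := by omega
    _ ≤ BB m k := Nat.mul_le_mul_left _ (by omega)

theorem lsize_le_of_forall {L : Line} {c : ℕ} (h : ∀ u ∈ L, u.size ≤ c) :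
    lsize L ≤ L.length * c := by
  induction L with
  | nil => simp [lsize_nil]
  | cons t L ih =>
    rw [lsize_cons, List.length_cons, Nat.add_mul, Nat.one_mul]
    have h1 := h t (by simp)
    have h2 := ih fun u hu => h u (by simp [hu])
    omega

theorem lsize_Wf {m : ℕ} (hm : ∀ w l, σ w = Sum.inr l → l.length ≤ m) {xs : List Lit} (b : Bool)
    (hxs : xs.length ≤ k) : lsize (Wf σ xs b) ≤ BB m k := by
  have key : ∀ (ys : List Lit) (g : List Lit → List Lit), (∀ r, (g r).length = r.length) →
      ys.length ≤ k → lsize ((ch σ ys).map fun r => Tm.mk ((g r).map Tm.lit)) ≤ BB m k := by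
    intro ys g hg hys
    have h1 := lsize_le_of_forall (L := (ch σ ys).map fun r => Tm.mk ((g r).map Tm.lit))
      (c := 1 + k * (m + 1)) (by
        intro u hu
        rw [List.mem_map] at hu
        obtain ⟨r, hr, rfl⟩ := hu
        rw [Tm.size_mk, lsize_lits, hg]
        have := length_of_mem_ch σ hm ys r hr
        have : ys.length * (m + 1) ≤ k * (m + 1) := Nat.mul_le_mul_right _ hys
        omega)
    refine h1.trans ?_
    rw [List.length_map, BB]
    refine Nat.mul_le_mul_right _ ?_
    calc (ch σ ys).length ≤ (m + 1) ^ ys.length := length_ch σ hm ys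
      _ ≤ (m + 2) ^ ys.length := Nat.pow_le_pow_left (by omega) _
      _ ≤ (m + 2) ^ (k + 1) := Nat.pow_le_pow_right (by omega) (by omega)
  rw [Wf]
  split
  · exact key xs (fun r => r) (fun r => rfl) hxs
  · exact key (xs.map negl) (fun r => r.map negl) (fun r => List.length_map _)
      (by rw [List.length_map]; exact hxs)

theorem length_lits_ofFn {n : ℕ} (f : Fin n → Tm) : (lits (List.ofFn f)).length ≤ n := by
  have := length_lits_le (List.ofFn f)
  rwa [List.length_ofFn] at this

theorem lsize_W {m : ℕ} (hm : ∀ w l, σ w = Sum.inr l → l.length ≤ m) (t : Tm) (b : Bool) :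
    lsize (W σ k t b) ≤ BB m k * t.size := by
  induction t generalizing b with
  | lit l =>
    rw [W_lit, Tm.size_lit]
    have h1 := lsize_Ul σ hm l b
    have h2 := BB_ge m k
    omega
  | node n f ih =>
    by_cases hf : n ≤ k ∧ ∀ i, (f i).isLit = true
    · rw [W_flat σ k hf]
      have h1 := lsize_Wf σ k hm b ((length_lits_ofFn f).trans hf.1)
      have h2 := Tm.one_le_size (Tm.node n f)
      calc _ ≤ BB m k * 1 := by omega
        _ ≤ _ := Nat.mul_le_mul_left _ h2
    · rw [W_node σ k hf, lsize_cons, lsize_nil, Tm.size_mk, lsize_flatten, List.map_ofFn,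
        List.sum_ofFn, Tm.size_node, Nat.mul_add, Finset.mul_sum]
      have := Finset.sum_le_sum fun i (_ : i ∈ Finset.univ) => ih i (!b)
      have h2 := BB_ge m k
      simp only [Function.comp]
      omega

/-- translate a line -/
def WL (L : Line) : Line := L.flatMap fun t => W σ k t true

theorem WL_append (L M : Line) : WL σ k (L ++ M) = WL σ k L ++ WL σ k M := by
  simp [WL]

theorem WL_cons (t : Tm) (M : Line) : WL σ k (t :: M) = W σ k t true ++ WL σ k M := by
  simp [WL]

theorem WL_nil : WL σ k [] = [] := rfl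

theorem WL_single (t : Tm) : WL σ k [t] = W σ k t true := by
  rw [WL_cons, WL_nil, List.append_nil]

theorem mem_WL {t u : Tm} {L : Line} (h : t ∈ L) (hu : u ∈ W σ k t true) : u ∈ WL σ k L :=
  List.mem_flatMap.2 ⟨t, h, hu⟩

theorem WL_subset {L M : Line} (h : L ⊆ M) : WL σ k L ⊆ WL σ k M := by
  intro u hu
  obtain ⟨t, ht, hu⟩ := List.mem_flatMap.1 hu
  exact mem_WL σ k (h ht) hu

theorem WL_ofFn {n : ℕ} (f : Fin n → Tm) :
    WL σ k (List.ofFn f) = (List.ofFn fun i => W σ k (f i) true).flatten := by
  rw [WL, List.flatMap_def, List.map_ofFn]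
  rfl

theorem WL_lits (xs : List Lit) : WL σ k (xs.map Tm.lit) = NU σ (xs.map negl) := by
  induction xs with
  | nil => rfl
  | cons x xs ih =>
    rw [List.map_cons, List.map_cons, WL_cons, NU_cons, ih, W_lit, negl_negl]

theorem WL_eq_UL {C : Line} (h : ∀ t ∈ C, t.isLit = true) : WL σ k C = UL σ C := by
  induction C with
  | nil => rfl
  | cons t C ih =>
    rw [WL_cons, UL_cons, ih fun u hu => h u (by simp [hu])]
    cases t with
    | lit l => rfl
    | node n f => have := h (Tm.node n f) (by simp); simp [Tm.isLit] at this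

theorem lsize_WL {m : ℕ} (hm : ∀ w l, σ w = Sum.inr l → l.length ≤ m) (L : Line) :
    lsize (WL σ k L) ≤ BB m k * lsize L := by
  induction L with
  | nil => rw [WL_nil, lsize_nil]; omega
  | cons t L ih =>
    rw [WL_cons, lsize_append, lsize_cons, Nat.mul_add]
    have := lsize_W σ k hm t true
    omega

theorem ht_WL {d : ℕ} (hd : 1 ≤ d) {L : Line} (h : ∀ t ∈ L, Narrow k t d) :
    ∀ t ∈ WL σ k L, t.ht < d + 1 := by
  intro u hu
  obtain ⟨t, ht, hu⟩ := List.mem_flatMap.1 hu
  have h1 := ht_W σ k t true d hd (h t ht) u hu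
  omega

end

/-- the literals of a flat gate -/
theorem flat_lits {n : ℕ} {f : Fin n → Tm} (h : ∀ i, (f i).isLit = true) :
    (lits (List.ofFn f)).map Tm.lit = List.ofFn f := by
  refine map_lits fun t ht => ?_
  rw [List.mem_ofFn] at ht
  obtain ⟨i, rfl⟩ := ht
  exact h i

/-- One step of the substitution. -/
theorem distStep (σ : ℕ → ℕ ⊕ List Lit) (k : ℕ) {F F' : Fml} {d m : ℕ} (hd : 1 ≤ d)
    (hm : ∀ w l, σ w = Sum.inr l → l.length ≤ m)
    (hlit : ∀ C ∈ F', ∀ t ∈ C, t.isLit = true)
    (hF : ∀ C ∈ F', (∃ C₀ ∈ F, C₀ ⊆ UL σ C) ∨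
      (∃ l : List Lit, l.length ≤ m ∧ Tm.mk (l.map Tm.lit) ∈ UL σ C ∧
        ∀ x ∈ l, Tm.lit (negl x) ∈ UL σ C) ∨
      (∃ x : Lit, Tm.lit x ∈ UL σ C ∧ Tm.lit (negl x) ∈ UL σ C))
    {S : ℕ} {π : List Line}
    {π' : List Line} (hπ' : IsProof F (d + 1) π') (hinv : ∀ M ∈ π, Has π' (WL σ k M))
    {L : Line} (hL : Step F' π L) (hh : ∀ t ∈ L, Narrow k t d) (hSL : 1 + lsize L ≤ S) :
    ∃ δ, IsProof F (d + 1) (δ ++ π') ∧ Has (δ ++ π') (WL σ k L) ∧
      psize δ ≤ 10 * (BB m k * S) ^ 3 := by
  set X := WL σ k L with hXdef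
  set Q := BB m k * S with hQdef
  have hX : ∀ t ∈ X, t.ht < d + 1 := ht_WL σ k hd hh
  have hBge := BB_ge m k
  have hXs : 1 + lsize X ≤ Q := by
    have h1 : lsize X ≤ BB m k * lsize L := lsize_WL σ k hm L
    have h2 : BB m k * (1 + lsize L) ≤ BB m k * S := Nat.mul_le_mul_left _ hSL
    rw [Nat.mul_add] at h2
    omega
  have hBQ : BB m k ≤ Q := by
    have : BB m k * 1 ≤ BB m k * S := Nat.mul_le_mul_left _ (by omega)
    omega
  have hQ1 : 1 ≤ Q := by omega
  have hQ2 : Q ≤ Q ^ 2 := Nat.le_self_pow (by norm_num) Q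
  have hQ3 : Q ^ 2 ≤ Q ^ 3 := Nat.pow_le_pow_right hQ1 (by norm_num)
  have hHas : ∀ Y : Line, Has π (Y ++ L) → Has π' (WL σ k Y ++ X) := by
    intro Y ⟨M, hM, hMY⟩
    refine (hinv M hM).mono ?_
    rw [hXdef, ← WL_append]
    exact WL_subset σ k hMY
  have one : ∀ {ρ : List Line}, IsProof F (d + 1) ρ → Step F ρ X →
      IsProof F (d + 1) ([X] ++ ρ) ∧ Has ([X] ++ ρ) X ∧ psize [X] ≤ Q := by
    intro ρ h1 h2
    refine ⟨isProof_cons h1 h2 hX, Has.head _ _, ?_⟩
    rw [psize_cons, psize_nil]
    omega
  have axm : ∀ l : List Lit, l.length ≤ m → Tm.mk (l.map Tm.lit) ∈ X →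
      (∀ x ∈ l, Tm.lit (negl x) ∈ X) → ∃ δ, IsProof F (d + 1) (δ ++ π') ∧ Has (δ ++ π') X ∧
        psize δ ≤ 10 * Q ^ 3 := by
    intro l hl h1 h2
    obtain ⟨δ, g1, g2, g3⟩ := axStep (F := F) hX l h1 h2 π' hπ'
    refine ⟨δ, g1, g2, g3.trans ?_⟩
    calc (l.length + 1) * (2 + lsize X) ≤ Q * (2 * Q) := Nat.mul_le_mul (by omega) (by omega)
      _ = 2 * Q ^ 2 := by ring
      _ ≤ 10 * Q ^ 3 := by omega
  -- the bound for the inversions of one gate
  have binv : ∀ j : ℕ, j ≤ k → 2 * j * (m + 2 + j * (m + 1) + lsize X) ≤ 4 * Q ^ 2 := by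
    intro j hj
    have h1 : j * (m + 1) ≤ k * (m + 1) := Nat.mul_le_mul_right _ hj
    have h2 : k * 1 ≤ k * (m + 1) := Nat.mul_le_mul_left _ (by omega)
    calc 2 * j * (m + 2 + j * (m + 1) + lsize X) ≤ (2 * Q) * (2 * Q) :=
          Nat.mul_le_mul (by omega) (by omega)
      _ = 4 * Q ^ 2 := by ring
  cases hL with
  | ax w h1 h2 =>
    cases hσ : σ w with
    | inl v =>
      obtain ⟨g1, g2, g3⟩ := one hπ' (Step.ax v
        (mem_WL σ k h1 (by rw [W_lit, Ul_inl σ hσ]; exact List.mem_singleton.2 rfl))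
        (mem_WL σ k h2 (by rw [W_lit, Ul_inl σ hσ]; exact List.mem_singleton.2 rfl)))
      exact ⟨[X], g1, g2, by omega⟩
    | inr l =>
      refine axm l (hm w l hσ) (mem_WL σ k h1 ?_) fun x hx => mem_WL σ k h2 ?_
      · rw [W_lit, Ul_inr σ hσ, if_pos rfl]; exact List.mem_singleton.2 rfl
      · rw [W_lit, Ul_inr σ hσ, if_neg (by simp), sgn_false]
        exact List.mem_map_of_mem (List.mem_map_of_mem hx)
  | hyp C hC h =>
    have hCX : UL σ C ⊆ X := by
      rw [← WL_eq_UL σ k (hlit C hC)]
      exact WL_subset σ k h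
    rcases hF C hC with ⟨C₀, hC₀, hCe⟩ | ⟨l, hl, h1, h2⟩ | ⟨x, h1, h2⟩
    · obtain ⟨g1, g2, g3⟩ := one hπ' (Step.hyp C₀ hC₀ (List.Subset.trans hCe hCX))
      exact ⟨[X], g1, g2, by omega⟩
    · exact axm l hl (hCX h1) fun x hx => hCX (h2 x hx)
    · have hst : Step F π' X := by
        obtain ⟨v, s⟩ := x
        cases s
        · exact Step.ax v (hCX h2) (hCX h1)
        · exact Step.ax v (hCX h1) (hCX h2)
      obtain ⟨g1, g2, g3⟩ := one hπ' hst
      exact ⟨[X], g1, g2, by omega⟩
  | and n f h h' =>
    by_cases hfl : n ≤ k ∧ ∀ i, (f i).isLit = true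
    · -- a distributed gate
      set xs := lits (List.ofFn f) with hxs
      have hxk : xs.length ≤ k := (length_lits_ofFn f).trans hfl.1
      have hmap := flat_lits hfl.2
      obtain ⟨δ, g1, g2, g3⟩ := andCh σ (F := F) hm hX xs [] π' hπ'
        (by
          intro r hr
          refine mem_WL σ k h ?_
          rw [W_flat σ k hfl, Wf, if_pos rfl, List.nil_append]
          exact List.mem_map_of_mem (f := fun r => Tm.mk (r.map Tm.lit)) hr)
        (by
          intro x hx
          have hx' : Tm.lit x ∈ List.ofFn f := by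
            rw [← hmap]
            exact List.mem_map_of_mem hx
          rw [List.mem_ofFn] at hx'
          obtain ⟨i, hi⟩ := hx'
          have := hHas _ (h' i)
          rw [hi, Tm.parts_lit, WL_single, W_lit] at this
          exact this)
      refine ⟨δ, g1, by simpa using g2, g3.trans ?_⟩
      rw [List.length_nil, zero_add]
      have h1 : xs.length * (m + 1) ≤ k * (m + 1) := Nat.mul_le_mul_right _ hxk
      have h2 : (m + 2) ^ xs.length ≤ Q := by
        calc (m + 2) ^ xs.length ≤ (m + 2) ^ k := Nat.pow_le_pow_right (by omega) hxk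
          _ ≤ BB m k := pow_le_BB m k
          _ ≤ Q := hBQ
      calc _ ≤ Q * ((2 * Q) * (2 * Q)) :=
            Nat.mul_le_mul h2 (Nat.mul_le_mul (by omega) (by omega))
        _ = 4 * Q ^ 3 := by ring
        _ ≤ 10 * Q ^ 3 := by omega
    · set K : List Tm := (List.ofFn fun i => W σ k (f i) (!true)).flatten with hK
      have hKX : Tm.mk K ∈ X := mem_WL σ k h (by
        rw [W_node σ k hfl]; exact List.mem_singleton.2 rfl)
      have hKlen : K.length + 1 ≤ Q := by
        have h1 := size_le_lsize hKX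
        have h2 := Tm.n_lt_size K.length K.get
        rw [Tm.mk] at h1
        omega
      obtain ⟨δ, g1, g2, g3⟩ := reach_all (F := F) (d := d + 1) (B := 4 * Q ^ 2)
        (K.map fun k => k.parts ++ X) π' hπ' (by
          intro Y hY δ hδ
          rw [List.mem_map] at hY
          obtain ⟨u, hu, rfl⟩ := hY
          rw [hK, List.mem_flatten] at hu
          obtain ⟨l, hl, hu⟩ := hu
          rw [List.mem_ofFn] at hl
          obtain ⟨i, rfl⟩ := hl
          have hi := (hHas _ (h' i)).ext δ
          cases hfi : f i with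
          | lit x =>
            obtain ⟨w, s⟩ := x
            rw [hfi] at hi hu
            rw [Tm.parts_lit, WL_single, W_lit] at hi
            rw [W_lit] at hu
            cases hσ : σ w with
            | inl v =>
              rw [Ul_inl σ hσ] at hi hu
              rw [List.mem_singleton] at hu
              subst hu
              exact ⟨[], hδ, hi, by simp [psize]⟩
            | inr l =>
              rw [Ul_inr σ hσ] at hi hu
              cases s
              · rw [if_pos (by simp), List.mem_singleton] at hu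
                rw [if_neg (by simp)] at hi
                subst hu
                rw [Tm.parts_mk]
                exact ⟨[], hδ, hi, by simp [psize]⟩
              · rw [if_neg (by simp), sgn_true] at hu
                rw [if_pos (by simp), sgn_true] at hi
                rw [List.mem_map] at hu
                obtain ⟨x, hx, rfl⟩ := hu
                rw [Tm.parts_lit]
                obtain ⟨δ', k1, k2, k3⟩ := inv (F := F) hX l hx hδ hi
                refine ⟨δ', k1, k2, k3.trans ?_⟩
                have hlm := hm w l hσ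
                omega
          | node m' g =>
            rw [hfi] at hi hu
            rw [Tm.parts_node] at hi
            by_cases hg : m' ≤ k ∧ ∀ i, (g i).isLit = true
            · have hmap := flat_lits hg.2
              rw [← hmap, WL_lits] at hi
              rw [W_flat σ k hg, Wf, if_neg (by simp), List.mem_map] at hu
              obtain ⟨r, hr, rfl⟩ := hu
              rw [Tm.parts_mk]
              obtain ⟨δ', k1, k2, k3⟩ := invCh σ (F := F) hd hm _ X (δ ++ π') hX hδ hi r hr
              refine ⟨δ', k1, k2, k3.trans (binv _ ?_)⟩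
              rw [List.length_map]
              exact (length_lits_ofFn g).trans hg.1
            · rw [W_node σ k hg, List.mem_singleton] at hu
              subst hu
              rw [Tm.parts_mk]
              rw [WL_ofFn] at hi
              exact ⟨[], hδ, hi, by simp [psize]⟩)
      rw [List.length_map] at g3
      have hst : Step F (δ ++ π') X := by
        refine Step.and _ _ hKX fun i => ?_
        have hi : K.get i ∈ K := List.get_mem _ i
        exact g2 _ (List.mem_map_of_mem (f := fun k => k.parts ++ X) hi)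
      obtain ⟨k1, k2, k3⟩ := one g1 hst
      refine ⟨[X] ++ δ, by rw [List.append_assoc]; exact k1, by rw [List.append_assoc]; exact k2,
        ?_⟩
      rw [psize_append]
      have a1 : K.length * (4 * Q ^ 2) ≤ Q * (4 * Q ^ 2) := Nat.mul_le_mul_right _ (by omega)
      have a2 : Q * (4 * Q ^ 2) = 4 * Q ^ 3 := by ring
      omega
  | cut t h1 h2 =>
    have hH1 := hHas [t] h1
    have hH2 := hHas _ h2
    rw [WL_single] at hH1
    cases t with
    | lit x =>
      obtain ⟨w, s⟩ := x
      rw [Tm.neg_lit, Tm.parts_lit, WL_single, W_lit] at hH2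
      rw [W_lit] at hH1
      have hH2' : Has π' (Ul σ (w, !s) true ++ X) := hH2
      cases hσ : σ w with
      | inl v =>
        rw [Ul_inl σ hσ] at hH1 hH2'
        obtain ⟨g1, g2, g3⟩ := one hπ' (Step.cut (Tm.lit (v, s)) hH1 hH2')
        exact ⟨[X], g1, g2, by omega⟩
      | inr l =>
        rw [Ul_inr σ hσ] at hH1 hH2'
        have hst : Step F π' X := by
          refine Step.cut (Tm.mk (l.map Tm.lit)) ?_ ?_
          · cases s
            · rw [if_pos (by simp)] at hH2'; exact hH2'
            · rw [if_pos (by simp)] at hH1; exact hH1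
          · rw [Tm.parts_neg_mk, map_lit_neg]
            cases s
            · rw [if_neg (by simp)] at hH1; exact hH1
            · rw [if_neg (by simp)] at hH2'; exact hH2'
        obtain ⟨g1, g2, g3⟩ := one hπ' hst
        exact ⟨[X], g1, g2, by omega⟩
    | node n f =>
      by_cases hfl : n ≤ k ∧ ∀ i, (f i).isLit = true
      · set xs := lits (List.ofFn f) with hxs
        have hxk : xs.length ≤ k := (length_lits_ofFn f).trans hfl.1
        have hmap := flat_lits hfl.2
        rw [W_flat σ k hfl] at hH1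
        have e : (Tm.node n f).neg.parts = (xs.map negl).map Tm.lit := by
          rw [Tm.neg_node, Tm.parts_node]
          have : (List.ofFn fun i => (f i).neg) = (List.ofFn f).map Tm.neg := by
            rw [List.map_ofFn]; rfl
          rw [this, ← hmap, map_lit_neg]
        rw [e, WL_lits, map_negl_negl] at hH2
        obtain ⟨δ, g1, g2, g3⟩ := reach_all (F := F) (d := d + 1) (B := 4 * Q ^ 2)
          ((ch σ xs).map fun r => (r.map negl).map Tm.lit ++ X) π' hπ' (by
            intro Y hY δ hδ
            rw [List.mem_map] at hY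
            obtain ⟨r, hr, rfl⟩ := hY
            obtain ⟨δ', k1, k2, k3⟩ := invCh σ (F := F) hd hm xs X (δ ++ π') hX hδ (hH2.ext δ) r hr
            exact ⟨δ', k1, k2, k3.trans (binv _ hxk)⟩)
        rw [List.length_map] at g3
        have hW : Wf σ xs true = (ch σ xs).map fun r => Tm.mk (r.map Tm.lit) := by
          rw [Wf, if_pos rfl]
        obtain ⟨δ', k1, k2, k3⟩ := cutsT (F := F) hX (Wf σ xs true) (δ ++ π') g1
          (fun t ht => by have := ht_Wf σ xs true t ht; omega)
          (hH1.ext δ)
          (by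
            intro t ht
            rw [hW, List.mem_map] at ht
            obtain ⟨r, hr, rfl⟩ := ht
            rw [Tm.parts_neg_mk, map_lit_neg]
            exact g2 _ (List.mem_map_of_mem (f := fun r => (r.map negl).map Tm.lit ++ X) hr))
        refine ⟨δ' ++ δ, by rw [List.append_assoc]; exact k1, by rw [List.append_assoc]; exact k2,
          ?_⟩
        have hlen : (ch σ xs).length ≤ Q := by
          calc (ch σ xs).length ≤ (m + 1) ^ xs.length := length_ch σ hm xs
            _ ≤ (m + 2) ^ xs.length := Nat.pow_le_pow_left (by omega) _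
            _ ≤ (m + 2) ^ k := Nat.pow_le_pow_right (by omega) hxk
            _ ≤ BB m k := pow_le_BB m k
            _ ≤ Q := hBQ
        have hWs := lsize_Wf σ k hm true hxk
        have hWl : (Wf σ xs true).length = (ch σ xs).length := by rw [hW, List.length_map]
        rw [psize_append]
        have a1 : (ch σ xs).length * (4 * Q ^ 2) ≤ Q * (4 * Q ^ 2) := Nat.mul_le_mul_right _ hlen
        have a2 : Q * (4 * Q ^ 2) = 4 * Q ^ 3 := by ring
        have a3 : (Wf σ xs true).length * (1 + lsize (Wf σ xs true) + lsize X) ≤ Q * (2 * Q) := by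
          rw [hWl]
          exact Nat.mul_le_mul hlen (by omega)
        have a4 : Q * (2 * Q) = 2 * Q ^ 2 := by ring
        omega
      · rw [W_node σ k hfl] at hH1
        have e : WL σ k (Tm.node n f).neg.parts =
            (Tm.mk (List.ofFn fun i => W σ k (f i) (!true)).flatten).neg.parts := by
          rw [Tm.parts_neg_mk, Tm.neg_node, Tm.parts_node, WL_ofFn, List.map_flatten,
            List.map_ofFn]
          congr 2
          funext i
          exact W_neg σ k (f i) true
        rw [e] at hH2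
        obtain ⟨g1, g2, g3⟩ := one hπ' (Step.cut _ hH1 hH2)
        exact ⟨[X], g1, g2, by omega⟩

/-- Substituting conjunctions for variables in a depth `d + 1` proof with bottom fan-in at most
`k` gives a depth `d + 1` proof. -/
theorem dist (σ : ℕ → ℕ ⊕ List Lit) (k : ℕ) {F F' : Fml} {d m : ℕ} (hd : 1 ≤ d)
    (hm : ∀ w l, σ w = Sum.inr l → l.length ≤ m)
    (hlit : ∀ C ∈ F', ∀ t ∈ C, t.isLit = true)
    (hF : ∀ C ∈ F', (∃ C₀ ∈ F, C₀ ⊆ UL σ C) ∨
      (∃ l : List Lit, l.length ≤ m ∧ Tm.mk (l.map Tm.lit) ∈ UL σ C ∧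
        ∀ x ∈ l, Tm.lit (negl x) ∈ UL σ C) ∨
      (∃ x : Lit, Tm.lit x ∈ UL σ C ∧ Tm.lit (negl x) ∈ UL σ C))
    {S : ℕ} : ∀ π : List Line, IsProof F' (d + 1) π → (∀ M ∈ π, ∀ t ∈ M, Narrow k t d) →
    (∀ M ∈ π, 1 + lsize M ≤ S) →
    ∃ π', IsProof F (d + 1) π' ∧ (∀ M ∈ π, Has π' (WL σ k M)) ∧
      psize π' ≤ π.length * (10 * (BB m k * S) ^ 3) := by
  intro π
  induction π with
  | nil => intro _ _ _; exact ⟨[], trivial, by simp, by simp [psize]⟩
  | cons L π ih =>
    intro h hN hS
    obtain ⟨h1, h2, h3⟩ := h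
    obtain ⟨π', g1, g2, g3⟩ := ih h1 (fun M hM => hN M (List.mem_cons_of_mem _ hM))
      (fun M hM => hS M (List.mem_cons_of_mem _ hM))
    obtain ⟨δ, k1, k2, k3⟩ := distStep σ k hd hm hlit hF g1 g2 h2 (hN L List.mem_cons_self)
      (hS L List.mem_cons_self)
    refine ⟨δ ++ π', k1, ?_, ?_⟩
    · intro M hM
      rw [List.mem_cons] at hM
      rcases hM with rfl | hM
      · exact k2
      · exact (g2 M hM).ext δ
    · rw [psize_append, List.length_cons, Nat.add_mul, Nat.one_mul]
      omega

end Pool.Agent.H80.HS
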