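import Mathlib
import Pool.Agent.H75.DH.Grow

set_option autoImplicit false

/-!
# HS Grow: two growth estimates (see `Pool.Agent.H75.DH.Grow` for `poly_lt_exp`, `growth`; you may import it)

`grow_one`: `Nat.log 2 s ≤ n ^ (ε / 2)`, so the left hand side is `≤ 6 n ^ (ε/2) + 6 ≤ n ^ ε` for large `n`; `s + 2 < 2 ^ (n^(ε/2)) + 2 ≤ 2 ^ (n ^ ε)`.
`grow_two`: with `x = n ^ (ε/4)`: `(k+2)(m+2) ≤ 2 ^ x'` with `x' = 2 x + 1` for large `n` (`k + 2 ≤ 2 ^ (x + 1)` and `m + 2 ≤ n^c + c + 2 ≤ 2 ^ x`,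
`poly_lt_exp`), exponent `a (k+2) ≤ a (x+2)`; `s + 1 ≤ 2 ^ (x+1)`. Total exponent `≤ a (2 x + 1) (x+2) + a (x+1) < x ^ 4 = n ^ ε` for large `x`.
-/

namespace Pool.Agent.H80.HS

theorem grow_one {ε : ℝ} (hε : 0 < ε) : ∃ n₀ : ℕ, ∀ n : ℕ, n₀ ≤ n → ∀ s : ℕ,
    (s : ℝ) < (2 : ℝ) ^ ((n : ℝ) ^ (ε / 2)) →
      ((6 * (Nat.log 2 s + 1) : ℕ) : ℝ) ≤ (n : ℝ) ^ ε ∧
      ((s + 2 : ℕ) : ℝ) < (2 : ℝ) ^ ((n : ℝ) ^ ε) := by
  have hδ : 0 < ε / 2 := by positivity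
  have hx : Filter.Tendsto (fun n : ℕ => (n : ℝ) ^ (ε / 2)) Filter.atTop Filter.atTop :=
    (tendsto_rpow_atTop hδ).comp tendsto_natCast_atTop_atTop
  obtain ⟨n₀, hn₀⟩ := Filter.eventually_atTop.1 (hx.eventually_ge_atTop 7)
  refine ⟨n₀, fun n hn s hs => ?_⟩
  have h7 := hn₀ n hn
  have hsq : (n : ℝ) ^ ε = (n : ℝ) ^ (ε / 2) * (n : ℝ) ^ (ε / 2) := by
    rw [← Real.rpow_add_of_nonneg (Nat.cast_nonneg n) hδ.le hδ.le]
    congr 1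
    ring
  rw [hsq]
  generalize (n : ℝ) ^ (ε / 2) = x at hs h7 ⊢
  have hlog : ((Nat.log 2 s : ℕ) : ℝ) ≤ x := by
    rcases Nat.eq_zero_or_pos s with h0 | h0
    · subst h0
      simp only [Nat.log_zero_right, Nat.cast_zero]
      linarith
    · have h1 : 2 ^ Nat.log 2 s ≤ s := Nat.pow_log_le_self 2 (by omega)
      have h2 : ((2 ^ Nat.log 2 s : ℕ) : ℝ) ≤ (s : ℝ) := by exact_mod_cast h1
      have h3 : (2 : ℝ) ^ ((Nat.log 2 s : ℕ) : ℝ) < (2 : ℝ) ^ x := by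
        rw [Real.rpow_natCast]
        push_cast at h2
        linarith
      exact ((Real.rpow_lt_rpow_left_iff one_lt_two).1 h3).le
  constructor
  · push_cast
    nlinarith
  · have h1 : (2 : ℝ) ^ (1 : ℝ) ≤ (2 : ℝ) ^ x :=
      Real.rpow_le_rpow_of_exponent_le one_le_two (by linarith)
    rw [Real.rpow_one] at h1
    have h2 : (2 : ℝ) ^ (x + 1) = (2 : ℝ) ^ x * 2 := by
      rw [Real.rpow_add two_pos, Real.rpow_one]
    have h3 : (2 : ℝ) ^ (x + 1) ≤ (2 : ℝ) ^ (x * x) :=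
      Real.rpow_le_rpow_of_exponent_le one_le_two (by nlinarith)
    push_cast
    linarith

theorem grow_two (c a : ℕ) {ε : ℝ} (hε : 0 < ε) : ∃ n₀ : ℕ, ∀ n : ℕ, n₀ ≤ n →
    ∀ s k m : ℕ, (k : ℝ) ≤ (n : ℝ) ^ (ε / 4) → m ≤ n ^ c + c →
      (s : ℝ) < (2 : ℝ) ^ ((n : ℝ) ^ (ε / 4)) →
      ((((k + 2) * (m + 2)) ^ (a * (k + 2)) * (s + 1) ^ a : ℕ) : ℝ) <
        (2 : ℝ) ^ ((n : ℝ) ^ ε) := by
  have hδ : 0 < ε / 4 := by positivity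
  have hx : Filter.Tendsto (fun n : ℕ => (n : ℝ) ^ (ε / 4)) Filter.atTop Filter.atTop :=
    (tendsto_rpow_atTop hδ).comp tendsto_natCast_atTop_atTop
  have h := ((Pool.Agent.H75.DH.poly_lt_exp (c + 2) hδ).and
    (hx.eventually_ge_atTop ((a : ℝ) + 4))).and (Filter.eventually_ge_atTop 1)
  obtain ⟨n₀, hn₀⟩ := Filter.eventually_atTop.1 h
  refine ⟨n₀, fun n hn s k m hk hm hs => ?_⟩
  obtain ⟨⟨hp, hxa⟩, hn1⟩ := hn₀ n hn
  have hm2 : ((m + 2 : ℕ) : ℝ) ≤ (2 : ℝ) ^ ((n : ℝ) ^ (ε / 4)) := by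
    have h1 : n ^ c ≤ n ^ (c + 2) := Nat.pow_le_pow_right hn1 (by omega)
    have h2 : m + 2 ≤ n ^ (c + 2) + (c + 2) := by omega
    have h3 : ((m + 2 : ℕ) : ℝ) ≤ ((n ^ (c + 2) + (c + 2) : ℕ) : ℝ) := by exact_mod_cast h2
    linarith
  have hsq : (n : ℝ) ^ ε = ((n : ℝ) ^ (ε / 4)) ^ 4 := by
    rw [← Real.rpow_natCast, ← Real.rpow_mul (Nat.cast_nonneg n)]
    congr 1
    push_cast
    ring
  rw [hsq]
  clear hp hx h hn₀ hsq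
  generalize (n : ℝ) ^ (ε / 4) = x at hk hs hxa hm2 ⊢
  have ha0 : (0 : ℝ) ≤ a := Nat.cast_nonneg a
  have hk0 : (0 : ℝ) ≤ k := Nat.cast_nonneg k
  have hx4 : 4 ≤ x := by linarith
  have hk2 : ((k + 2 : ℕ) : ℝ) ≤ (2 : ℝ) ^ (x + 1) := by
    have h1 : k + 2 ≤ 2 ^ (k + 1) := by
      have h2 : k + 1 ≤ 2 ^ k := Nat.lt_two_pow_self
      have h3 : 2 ^ (k + 1) = 2 * 2 ^ k := by ring
      omega
    have h2 : ((k + 2 : ℕ) : ℝ) ≤ ((2 ^ (k + 1) : ℕ) : ℝ) := by exact_mod_cast h1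
    have h3 : ((2 ^ (k + 1) : ℕ) : ℝ) = (2 : ℝ) ^ ((k : ℝ) + 1) := by
      rw [Nat.cast_pow, ← Real.rpow_natCast]
      push_cast
      rfl
    rw [h3] at h2
    exact h2.trans (Real.rpow_le_rpow_of_exponent_le one_le_two (by linarith))
  have hkm : (((k + 2) * (m + 2) : ℕ) : ℝ) ≤ (2 : ℝ) ^ (2 * x + 1) := by
    rw [Nat.cast_mul]
    calc ((k + 2 : ℕ) : ℝ) * ((m + 2 : ℕ) : ℝ) ≤ (2 : ℝ) ^ (x + 1) * (2 : ℝ) ^ x :=
          mul_le_mul hk2 hm2 (Nat.cast_nonneg _) (by positivity)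
      _ = (2 : ℝ) ^ (2 * x + 1) := by
          rw [← Real.rpow_add two_pos]
          congr 1
          ring
  have hpw : (((k + 2) * (m + 2) : ℕ) : ℝ) ^ (a * (k + 2)) ≤
      (2 : ℝ) ^ ((2 * x + 1) * (a * (x + 2))) := by
    calc (((k + 2) * (m + 2) : ℕ) : ℝ) ^ (a * (k + 2)) ≤
          ((2 : ℝ) ^ (2 * x + 1)) ^ (a * (k + 2)) :=
          pow_le_pow_left₀ (Nat.cast_nonneg _) hkm _
      _ = (2 : ℝ) ^ ((2 * x + 1) * ((a * (k + 2) : ℕ) : ℝ)) := by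
          rw [Real.rpow_mul (by norm_num : (0 : ℝ) ≤ 2), Real.rpow_natCast]
      _ ≤ (2 : ℝ) ^ ((2 * x + 1) * (a * (x + 2))) := by
          refine Real.rpow_le_rpow_of_exponent_le one_le_two ?_
          refine mul_le_mul_of_nonneg_left ?_ (by linarith)
          push_cast
          exact mul_le_mul_of_nonneg_left (by linarith) ha0
  have hs1 : ((s + 1 : ℕ) : ℝ) ≤ (2 : ℝ) ^ (x + 1) := by
    have h1 : (2 : ℝ) ^ (1 : ℝ) ≤ (2 : ℝ) ^ x :=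
      Real.rpow_le_rpow_of_exponent_le one_le_two (by linarith)
    rw [Real.rpow_one] at h1
    have h2 : (2 : ℝ) ^ (x + 1) = (2 : ℝ) ^ x * 2 := by
      rw [Real.rpow_add two_pos, Real.rpow_one]
    rw [h2]
    push_cast
    linarith
  have hsw : ((s + 1 : ℕ) : ℝ) ^ a ≤ (2 : ℝ) ^ ((x + 1) * a) := by
    calc ((s + 1 : ℕ) : ℝ) ^ a ≤ ((2 : ℝ) ^ (x + 1)) ^ a :=
          pow_le_pow_left₀ (Nat.cast_nonneg _) hs1 _
      _ = (2 : ℝ) ^ ((x + 1) * (a : ℝ)) := by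
          rw [Real.rpow_mul (by norm_num : (0 : ℝ) ≤ 2), Real.rpow_natCast]
  have hfin : (2 * x + 1) * (a * (x + 2)) + (x + 1) * a < x ^ 4 := by
    have h1 : (a : ℝ) ≤ x := by linarith
    have h2 : (2 * x + 1) * (a * (x + 2)) + (x + 1) * a = a * (2 * x ^ 2 + 6 * x + 3) := by ring
    have h3 : (a : ℝ) * (2 * x ^ 2 + 6 * x + 3) ≤ x * (2 * x ^ 2 + 6 * x + 3) :=
      mul_le_mul_of_nonneg_right h1 (by positivity)
    have h4 : 2 * x ^ 2 + 6 * x + 3 < x ^ 3 := by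
      have e1 : 4 * x ^ 2 ≤ x ^ 3 := by
        have : 0 ≤ (x - 4) * x ^ 2 := mul_nonneg (by linarith) (by positivity)
        nlinarith
      nlinarith
    have h5 : x * (2 * x ^ 2 + 6 * x + 3) < x * x ^ 3 :=
      mul_lt_mul_of_pos_left h4 (by linarith)
    have h6 : x * x ^ 3 = x ^ 4 := by ring
    linarith
  rw [Nat.cast_mul, Nat.cast_pow, Nat.cast_pow]
  calc (((k + 2) * (m + 2) : ℕ) : ℝ) ^ (a * (k + 2)) * ((s + 1 : ℕ) : ℝ) ^ a ≤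
        (2 : ℝ) ^ ((2 * x + 1) * (a * (x + 2))) * (2 : ℝ) ^ ((x + 1) * a) :=
        mul_le_mul hpw hsw (by positivity) (by positivity)
    _ = (2 : ℝ) ^ ((2 * x + 1) * (a * (x + 2)) + (x + 1) * a) := by
        rw [← Real.rpow_add two_pos]
    _ < (2 : ℝ) ^ (x ^ 4) := Real.rpow_lt_rpow_of_exponent_lt one_lt_two hfin

end Pool.Agent.H80.HS
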