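import Mathlib
import Pool.Agent.H80.HS.Basic

set_option autoImplicit false

/-!
# HS Kill: some restriction kills all wide gates

PROOF. Let `V` be a finite set of numbers containing `y.1 / 2` for all literals `y` of `E`. Count the functions `ω : V → Bool × Bool`
(`4 ^ |V|`). For a gate `g` with `nv g.2 ≥ w` and every `v` in its set of variables some literal `y ∈ g.2` with `y.1 / 2 = v` and the value
`ω v = (decide (y.1 % 2 = 1), if y.2 then !g.1 else g.1)` kills `g` (`(v == y.2) = !g.1` for this value). So the `ω` which do not kill `g` are in a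
product (`Fintype.piFinset`) with `3` choices at the variables of `g` and `4` elsewhere: at most `3 ^ nv * 4 ^ (|V| - nv) ≤ 3 ^ w * 4 ^ (|V| - w)`.
Union bound over `E`: `E.length * 3 ^ w * 4 ^ (|V| - w) < 4 ^ |V|` (if no gate has `nv ≥ w` there is nothing to prove; otherwise
`w ≤ |V|`). Extend `ω` by anything outside `V`. (Alternative without counting: choose `ω v` one after the other.)
-/

namespace Pool.Agent.H80.HS

open Pool.Agent.H75.DH

private theorem Kill_of (ω : ℕ → Bool × Bool) (g : Bool × List Lit) (y : Lit) (hy : y ∈ g.2)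
    (h : ω (y.1 / 2) = (decide (y.1 % 2 = 1), if y.2 = true then !g.1 else g.1)) :
    Kills (tau ω) g := by
  refine ⟨y, hy, if y.2 = true then !g.1 else g.1, ?_, ?_⟩
  · rw [tau, h, if_pos rfl]
  · cases h2 : y.2 <;> simp

private theorem Kill_pow {w n m : ℕ} (h1 : w ≤ n) (h2 : n ≤ m) :
    3 ^ n * 4 ^ (m - n) ≤ 3 ^ w * 4 ^ (m - w) := by
  obtain ⟨a, rfl⟩ := Nat.exists_eq_add_of_le h1
  obtain ⟨b, rfl⟩ := Nat.exists_eq_add_of_le h2
  have e1 : w + a + b - (w + a) = b := by omega
  have e2 : w + a + b - w = a + b := by omega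
  rw [e1, e2, pow_add, pow_add, mul_assoc]
  exact Nat.mul_le_mul_left _ (Nat.mul_le_mul_right _ (Nat.pow_le_pow_left (by norm_num) _))

/-- the number of `ω` which do not kill `g` -/
private theorem Kill_bad (V : Finset ℕ) (ext : (V → Bool × Bool) → ℕ → Bool × Bool)
    (hext : ∀ ω (v : V), ext ω v = ω v) (g : Bool × List Lit)
    (hV : (g.2.map fun y => y.1 / 2).toFinset ⊆ V) (s : Finset (V → Bool × Bool))
    (hs : ∀ ω ∈ s, ¬ Kills (tau (ext ω)) g) :
    s.card ≤ 3 ^ (nv g.2) * 4 ^ (V.card - nv g.2) := by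
  classical
  set U : Finset ℕ := (g.2.map fun y => y.1 / 2).toFinset with hU
  have hy : ∀ v ∈ U, ∃ y ∈ g.2, y.1 / 2 = v := by
    intro v hv
    rw [hU, List.mem_toFinset, List.mem_map] at hv
    exact hv
  choose! y hy1 hy2 using hy
  let a : ℕ → Bool × Bool := fun v => (decide ((y v).1 % 2 = 1), if (y v).2 = true then !g.1 else g.1)
  let T : V → Finset (Bool × Bool) := fun v =>
    if (v : ℕ) ∈ U then Finset.univ.erase (a v) else Finset.univ
  have hsub : s ⊆ Fintype.piFinset T := by
    intro ω hω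
    rw [Fintype.mem_piFinset]
    intro v
    by_cases hv : (v : ℕ) ∈ U
    · have h1 : T v = Finset.univ.erase (a v) := if_pos hv
      rw [h1, Finset.mem_erase]
      refine ⟨fun hav => hs ω hω ?_, Finset.mem_univ _⟩
      refine Kill_of _ g (y v) (hy1 v hv) ?_
      rw [hy2 v hv, hext ω v, hav]
    · have h1 : T v = Finset.univ := if_neg hv
      rw [h1]
      exact Finset.mem_univ _
  have hcard : (Fintype.piFinset T).card = 3 ^ U.card * 4 ^ (V.card - U.card) := by
    rw [Fintype.card_piFinset]
    have h2 : ∀ v : V, (T v).card = if (v : ℕ) ∈ U then 3 else 4 := by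
      intro v
      by_cases hv : (v : ℕ) ∈ U
      · have h1 : T v = Finset.univ.erase (a v) := if_pos hv
        rw [h1, if_pos hv, Finset.card_erase_of_mem (Finset.mem_univ _)]
        rfl
      · have h1 : T v = Finset.univ := if_neg hv
        rw [h1, if_neg hv]
        rfl
    rw [Finset.prod_congr rfl fun v _ => h2 v, Finset.prod_ite, Finset.prod_const,
      Finset.prod_const]
    have h3 : (Finset.univ.filter fun v : V => (v : ℕ) ∈ U).card = U.card := by
      have h4 : (Finset.univ.filter fun v : V => (v : ℕ) ∈ U) = U.subtype (· ∈ V) := by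
        ext v
        simp
      rw [h4, Finset.card_subtype]
      congr 1
      exact Finset.filter_true_of_mem fun v hv => hV hv
    have h5 := Finset.card_filter_add_card_filter_not (s := (Finset.univ : Finset V))
      (fun v : V => (v : ℕ) ∈ U)
    rw [h3, Finset.card_univ, Fintype.card_coe] at h5
    have h6 : (Finset.univ.filter fun v : V => ¬ (v : ℕ) ∈ U).card = V.card - U.card := by omega
    rw [h3, h6]
  have h7 := Finset.card_le_card hsub
  rw [hcard] at h7
  exact h7

theorem exists_kill (E : List (Bool × List Lit)) (w : ℕ) (h : E.length * 3 ^ w < 4 ^ w) :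
    ∃ ω : ℕ → Bool × Bool, ∀ g ∈ E, w ≤ nv g.2 → Kills (tau ω) g := by
  classical
  by_cases hw : ∃ g ∈ E, w ≤ nv g.2
  swap
  · exact ⟨fun _ => (false, false), fun g hg hgw => (hw ⟨g, hg, hgw⟩).elim⟩
  set V : Finset ℕ := (E.flatMap fun g => g.2.map fun y => y.1 / 2).toFinset with hVdef
  have hV : ∀ g ∈ E, (g.2.map fun y => y.1 / 2).toFinset ⊆ V := by
    intro g hg v hv
    rw [List.mem_toFinset] at hv
    rw [hVdef, List.mem_toFinset, List.mem_flatMap]
    exact ⟨g, hg, hv⟩
  have hwV : w ≤ V.card := by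
    obtain ⟨g, hg, hgw⟩ := hw
    exact hgw.trans (Finset.card_le_card (hV g hg))
  let ext : (V → Bool × Bool) → ℕ → Bool × Bool := fun ω n =>
    if h : n ∈ V then ω ⟨n, h⟩ else (false, false)
  have hext : ∀ ω (v : V), ext ω v = ω v := by
    intro ω v
    exact dif_pos v.2
  by_contra hcon
  push Not at hcon
  let bad : Bool × List Lit → Finset (V → Bool × Bool) := fun g =>
    Finset.univ.filter fun ω => ¬ Kills (tau (ext ω)) g
  have hcov : (Finset.univ : Finset (V → Bool × Bool)) ⊆
      (E.toFinset.filter fun g => w ≤ nv g.2).biUnion bad := by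
    intro ω _
    obtain ⟨g, hg, hgw, hk⟩ := hcon (ext ω)
    rw [Finset.mem_biUnion]
    refine ⟨g, ?_, ?_⟩
    · rw [Finset.mem_filter, List.mem_toFinset]
      exact ⟨hg, hgw⟩
    · rw [Finset.mem_filter]
      exact ⟨Finset.mem_univ _, hk⟩
  have h1 : (Finset.univ : Finset (V → Bool × Bool)).card = 4 ^ V.card := by
    rw [Finset.card_univ, Fintype.card_fun, Fintype.card_coe]
    rfl
  have h2 : ∀ g ∈ E.toFinset.filter fun g => w ≤ nv g.2,
      (bad g).card ≤ 3 ^ w * 4 ^ (V.card - w) := by
    intro g hg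
    rw [Finset.mem_filter, List.mem_toFinset] at hg
    refine (Kill_bad V ext hext g (hV g hg.1) (bad g) fun ω hω => ?_).trans
      (Kill_pow hg.2 (Finset.card_le_card (hV g hg.1)))
    rw [Finset.mem_filter] at hω
    exact hω.2
  have h3 := (Finset.card_le_card hcov).trans (Finset.card_biUnion_le.trans
    (Finset.sum_le_card_nsmul _ _ _ h2))
  have h4 : (E.toFinset.filter fun g => w ≤ nv g.2).card ≤ E.length :=
    (Finset.card_filter_le _ _).trans (List.toFinset_card_le E)
  have h5 : 4 ^ V.card = 4 ^ w * 4 ^ (V.card - w) := by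
    rw [← pow_add]
    congr 1
    omega
  rw [h1, h5, smul_eq_mul] at h3
  have h6 : (E.toFinset.filter fun g => w ≤ nv g.2).card * (3 ^ w * 4 ^ (V.card - w)) ≤
      E.length * (3 ^ w * 4 ^ (V.card - w)) := Nat.mul_le_mul_right _ h4
  have h7 : E.length * (3 ^ w * 4 ^ (V.card - w)) < 4 ^ w * 4 ^ (V.card - w) := by
    rw [← mul_assoc]
    exact Nat.mul_lt_mul_of_pos_right h (pow_pos (by norm_num) _)
  omega

end Pool.Agent.H80.HS
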