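import Mathlib
import Pool.Agent.H80.HS.Basic

set_option autoImplicit false

/-!
# HS Nar: after the restriction the bottom gates are small

PROOF of `narrow_R`, induction on `t` (generalizing `b`, `h`). Literal: `Rl` gives `[]`, `[mk []]` or a literal. Node `n f` with height `≤ h`, so `1 ≤ h`: if
`mk [] ∈ flatten ..` there is no `u`; otherwise `u = mk C.dedup`, `C = flatten (R (f i) (!b))`, `mk [] ∉ C`. Children: elements of `R (f i) (!b)` different
from `mk []`, induction with `h - 1`. If `h = 1`, all `f i` have height 0, so they are literals, `C` consists of the literals replacing the alive ones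
among `lits (List.ofFn f)`. If the gate is killed by `y` with value `v`, `(v == y.2) = !b`, then `mk [] ∈ Rl (tau ω) y (!b)`, contradiction. So
`nv (lits (List.ofFn f)) < w`, and the replaced literals are among `(v, true), (v, false)` with `v = y.1 / 2`: `C.dedup.length ≤ 2 * nv ≤ 2 * w`
(`List.toFinset_card_of_nodup`, image of a finset of size `2 * nv`).
`length_gts`: induction (`List.length_flatten`, `Tm.size_node`, `List.sum_ofFn`).
-/

namespace Pool.Agent.H80.HS

open Pool.Agent.H75.DH

private theorem mem_lits {L : List Tm} {y : Lit} : y ∈ lits L ↔ Tm.lit y ∈ L := by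
  unfold lits
  rw [List.mem_filterMap]
  constructor
  · rintro ⟨t, ht, h⟩
    cases t with
    | lit l =>
      simp only [Tm.toLit, Option.some.injEq] at h
      rw [← h]
      exact ht
    | node n f => simp [Tm.toLit] at h
  · intro h
    exact ⟨Tm.lit y, h, rfl⟩

private theorem small_gate (ω : ℕ → Bool × Bool) (w : ℕ) (b : Bool) (n : ℕ) (f : Fin n → Tm)
    (hlit : ∀ i, (f i).ht = 0)
    (hg : nv (lits (List.ofFn f)) < w ∨ Kills (tau ω) (b, lits (List.ofFn f)))
    (hC : Tm.mk [] ∉ (List.ofFn fun i => R (tau ω) (f i) (!b)).flatten) (D : List Tm)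
    (hD : D.Nodup) (hDC : ∀ u ∈ D, u ∈ (List.ofFn fun i => R (tau ω) (f i) (!b)).flatten) :
    D.length ≤ 2 * w := by
  classical
  have hf : ∀ i, ∃ y : Lit, f i = Tm.lit y := by
    intro i
    have h1 := hlit i
    cases h2 : f i with
    | lit l => exact ⟨l, rfl⟩
    | node m g =>
      rw [h2, Tm.ht_node] at h1
      omega
  rcases hg with hg | hg
  · have h1 : D.toFinset ⊆ ((((lits (List.ofFn f)).map fun y => y.1 / 2).toFinset ×ˢ
        (Finset.univ : Finset Bool)).image fun q => Tm.lit q) := by
      intro u hu
      rw [List.mem_toFinset] at hu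
      have h2 := hDC u hu
      rw [List.mem_flatten] at h2
      obtain ⟨l, hl, hul⟩ := h2
      rw [List.mem_ofFn] at hl
      obtain ⟨i, hi⟩ := hl
      obtain ⟨y, hy⟩ := hf i
      have hyl : y ∈ lits (List.ofFn f) := by
        rw [mem_lits, List.mem_ofFn]
        exact ⟨i, hy⟩
      have hi2 : R (tau ω) (f i) (!b) = l := hi
      rw [hy] at hi2
      have hR : R (tau ω) (Tm.lit y) (!b) = Rl (tau ω) y (!b) := by simp only [R]
      rw [hR] at hi2
      have hnot : Tm.mk [] ∉ l := by
        intro h
        refine hC ?_
        rw [List.mem_flatten]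
        exact ⟨l, by rw [List.mem_ofFn]; exact ⟨i, hi⟩, h⟩
      rw [← hi2] at hul hnot
      unfold Rl tau at hul hnot
      by_cases h3 : decide (y.1 % 2 = 1) = (ω (y.1 / 2)).1
      · rw [if_pos h3] at hul hnot
        simp only at hul hnot
        split_ifs at hul hnot with h4
        · exact absurd (by simp) hnot
        · exact absurd hul (by simp)
      · rw [if_neg h3] at hul
        simp only [List.mem_singleton] at hul
        rw [Finset.mem_image]
        refine ⟨(y.1 / 2, (!(ω (y.1 / 2)).2) == y.2), ?_, hul.symm⟩
        rw [Finset.mem_product]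
        refine ⟨?_, Finset.mem_univ _⟩
        rw [List.mem_toFinset, List.mem_map]
        exact ⟨y, hyl, rfl⟩
    have h2 := Finset.card_le_card h1
    rw [List.toFinset_card_of_nodup hD] at h2
    refine h2.trans (Finset.card_image_le.trans ?_)
    rw [Finset.card_product]
    have h3 : (Finset.univ : Finset Bool).card = 2 := by simp
    rw [h3]
    unfold nv at hg
    omega
  · exfalso
    obtain ⟨y, hy, v, hv, hvy⟩ := hg
    simp only at hy hvy
    rw [mem_lits, List.mem_ofFn] at hy
    obtain ⟨i, hi⟩ := hy
    apply hC
    rw [List.mem_flatten]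
    refine ⟨R (tau ω) (f i) (!b), ?_, ?_⟩
    · rw [List.mem_ofFn]
      exact ⟨i, rfl⟩
    · rw [hi]
      have hR : R (tau ω) (Tm.lit y) (!b) = Rl (tau ω) y (!b) := by simp only [R]
      rw [hR]
      unfold Rl
      rw [hv]
      simp only
      rw [if_pos hvy]
      simp

theorem narrow_R (ω : ℕ → Bool × Bool) (w : ℕ) (t : Tm) (b : Bool) (h : ℕ) (ht : t.ht ≤ h)
    (hg : ∀ g ∈ gts t b, nv g.2 < w ∨ Kills (tau ω) g) :
    ∀ u ∈ R (tau ω) t b, u = Tm.mk [] ∨ Narrow (2 * w) u h := by
  classical
  induction t generalizing b h with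
  | lit l =>
    intro u hu
    have hR : R (tau ω) (Tm.lit l) b = Rl (tau ω) l b := by simp only [R]
    rw [hR] at hu
    unfold Rl at hu
    cases h1 : tau ω l.1 with
    | inl v =>
      rw [h1] at hu
      simp only at hu
      split_ifs at hu with h2
      · exact Or.inl (by simpa using hu)
      · exact absurd hu (by simp)
    | inr x =>
      rw [h1] at hu
      simp only [List.mem_singleton] at hu
      rw [hu]
      exact Or.inr (by simp only [Narrow])
  | node n f ih =>
    intro u hu
    have hh : 1 ≤ h := by
      rw [Tm.ht_node] at ht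
      omega
    have hchild : ∀ i, (f i).ht ≤ h - 1 := by
      intro i
      have h1 := Tm.ht_child f i
      omega
    have hgc : ∀ i, ∀ g ∈ gts (f i) (!b), g ∈ gts (Tm.node n f) b := by
      intro i g hgi
      simp only [gts]
      refine List.mem_cons_of_mem _ ?_
      rw [List.mem_flatten]
      exact ⟨gts (f i) (!b), by rw [List.mem_ofFn]; exact ⟨i, rfl⟩, hgi⟩
    simp only [R] at hu
    split_ifs at hu with hC
    · exact absurd hu (by simp)
    rw [List.mem_singleton] at hu
    right
    rw [hu, Tm.mk]
    simp only [Narrow]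
    refine ⟨hh, ?_, ?_⟩
    · intro h1
      refine small_gate ω w b n f (fun i => ?_) (hg (b, lits (List.ofFn f)) ?_) hC _
        (List.nodup_dedup _) ?_
      · have := hchild i
        omega
      · simp only [gts]
        exact List.mem_cons_self
      · intro u hu
        exact List.mem_dedup.1 hu
    · intro i
      have h1 := List.mem_dedup.1 (List.get_mem _ i)
      have h2 := h1
      rw [List.mem_flatten] at h2
      obtain ⟨l, hl, hul⟩ := h2
      rw [List.mem_ofFn] at hl
      obtain ⟨i', hi'⟩ := hl
      have h3 := ih i' (!b) (h - 1) (hchild i') (fun g hgi => hg g (hgc i' g hgi))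
      have hi2 : R (tau ω) (f i') (!b) = l := hi'
      rw [hi2] at h3
      rcases h3 _ hul with h4 | h4
      · exfalso
        rw [h4] at h1
        exact hC h1
      · exact h4

theorem length_gts (t : Tm) (b : Bool) : (gts t b).length ≤ t.size := by
  induction t generalizing b with
  | lit l => simp [gts]
  | node n f ih =>
    simp only [gts]
    rw [List.length_cons, List.length_flatten, List.map_ofFn, List.sum_ofFn, Tm.size_node, add_comm]
    refine Nat.add_le_add_left ?_ 1
    exact Finset.sum_le_sum fun i _ => ih i (!b)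

end Pool.Agent.H80.HS
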