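import Mathlib
import Pool.Agent.H80.HS.Basic

set_option autoImplicit false

/-!
# HS Restr: restricting a refutation

PROOF. Let `top = Tm.mk []` (height 1, size 1, `top.neg = top`). `R_neg : R τ t.neg b = (R τ t (!b)).map Tm.neg` (the map `Tm.neg` is
injective and fixes `top`, so it commutes with `dedup` up to membership; if equality is awkward because of `dedup`, prove
`List.map_dedup_of_injective`-like or state the membership version, which is enough below). Sizes: `lsize (R τ t b) ≤ t.size`
(`dedup` is a sublist). Heights: `u ∈ R τ t b → u = top ∨ u.ht ≤ t.ht` (induction; inside a gate which is kept there is no `top`).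
The proof `ρ'` starts with the line `[top]` (AND introduction with no premise; height `1 < d` since `2 ≤ d`). Induction over `ρ`; let `L` be the new
line, `Γ = RL τ L`. If `top ∈ Γ`: nothing to do (`Has` by the line `[top]`). Otherwise add the line `Γ` unless it is already `Has`:
* `ax v`: if `τ v` is a value, one of the two literals gives `top ∈ Γ`; otherwise `ax`.
* line `C` of `G`, `C ⊆ L`: `RL τ C ⊆ Γ`, use `hG`.
* AND introduction, main gate `node n f`, `K = flatten R (f i) false`. If `top ∈ K`, say `top ∈ R τ (f i) false`: then `RL τ (f i).parts = []` or (for a node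
  `f i`) the flattened list of `f i` is empty, so `RL τ ((f i).parts ++ L) ⊆ Γ`: `Has ρ' Γ` already, no new line needed. If
  `top ∉ K`: `Tm.mk K.dedup ∈ Γ`, and for `k ∈ K`, `k ∈ R τ (f i) false`: `k.parts ⊆ RL τ (f i).parts` and conversely, so the premise gives
  `Has ρ' (k.parts ++ Γ)` (`f i` a literal: `k` is the replaced literal; a node: `k = mk C'.dedup`, `RL τ (f i).parts = C'`): AND introduction.
* cut on `t`: a literal with a value: one of the premises is (contained in) `Γ` already; an alive literal: cut. A node: `R τ t true = []`: the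
  first premise; otherwise `R τ t true = [mk C.dedup]` and `RL τ t.neg.parts = C.map neg`: cut.
`M` has no `top` for the new lines by construction.
-/

namespace Pool.Agent.H80.HS

open Pool.Agent.H75.DH

section

variable (τ : ℕ → Bool ⊕ Lit)

private theorem top_neg : (Tm.mk []).neg = Tm.mk [] := by rw [Tm.neg_mk]; rfl

private theorem neg_inj : Function.Injective Tm.neg := fun a b h => by
  rw [← Tm.neg_neg a, ← Tm.neg_neg b, h]

private theorem Rl_inl {w : ℕ} {v : Bool} (h : τ w = Sum.inl v) (s b : Bool) :
    Rl τ (w, s) b = if (v == s) = b then [Tm.mk []] else [] := by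
  simp only [Rl, h]

private theorem Rl_inr {w : ℕ} {x : Lit} (h : τ w = Sum.inr x) (s b : Bool) :
    Rl τ (w, s) b = [Tm.lit (x.1, x.2 == s)] := by
  simp only [Rl, h]

private theorem R_lit (l : Lit) (b : Bool) : R τ (.lit l) b = Rl τ l b := by rw [R]

open Classical in
private theorem R_node {n : ℕ} (f : Fin n → Tm) (b : Bool) : R τ (.node n f) b =
    if Tm.mk [] ∈ (List.ofFn fun i => R τ (f i) (!b)).flatten then []
    else [Tm.mk (List.ofFn fun i => R τ (f i) (!b)).flatten.dedup] := by
  rw [R]

private theorem R_neg (t : Tm) (b : Bool) : R τ t.neg b = (R τ t (!b)).map Tm.neg := by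
  classical
  induction t generalizing b with
  | lit l =>
    obtain ⟨w, s⟩ := l
    rw [Tm.neg_lit, R_lit, R_lit]
    show Rl τ (w, !s) b = _
    cases h : τ w with
    | inl v =>
      rw [Rl_inl τ h, Rl_inl τ h]
      cases v <;> cases s <;> cases b <;> simp [top_neg]
    | inr x =>
      rw [Rl_inr τ h, Rl_inr τ h]
      obtain ⟨x1, x2⟩ := x
      cases x2 <;> cases s <;> rfl
  | node n f ih =>
    rw [Tm.neg_node, R_node, R_node]
    have e : (List.ofFn fun i => R τ ((f i).neg) (!b)).flatten =
        ((List.ofFn fun i => R τ (f i) (!!b)).flatten).map Tm.neg := by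
      rw [List.map_flatten, List.map_ofFn]
      congr 2
      funext i
      exact ih i _
    rw [e]
    set C := (List.ofFn fun i => R τ (f i) (!!b)).flatten with hC
    have h1 : Tm.mk [] ∈ C.map Tm.neg ↔ Tm.mk [] ∈ C := by
      rw [List.mem_map]
      constructor
      · rintro ⟨u, hu, h⟩
        rw [← top_neg] at h
        rw [neg_inj h] at hu
        exact hu
      · intro h
        exact ⟨_, h, top_neg⟩
    by_cases h : Tm.mk [] ∈ C
    · rw [if_pos (h1.2 h), if_pos h]; rfl
    · rw [if_neg (fun h' => h (h1.1 h')), if_neg h, List.map_cons, List.map_nil, Tm.neg_mk,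
        List.dedup_map_of_injective neg_inj]

private theorem lsize_dedup [DecidableEq Tm] (C : Line) : lsize C.dedup ≤ lsize C := by
  have h := (List.dedup_sublist C).map Tm.size
  exact h.sum_le_sum (fun _ _ => Nat.zero_le _)

private theorem lsize_R (t : Tm) (b : Bool) : lsize (R τ t b) ≤ t.size := by
  classical
  induction t generalizing b with
  | lit l =>
    obtain ⟨w, s⟩ := l
    rw [R_lit, Tm.size_lit]
    cases h : τ w with
    | inl v =>
      rw [Rl_inl τ h]
      split
      · rw [lsize_cons, lsize_nil, Tm.size_mk, lsize_nil]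
      · rw [lsize_nil]; omega
    | inr x =>
      rw [Rl_inr τ h, lsize_cons, lsize_nil, Tm.size_lit]
  | node n f ih =>
    rw [R_node]
    split
    · rw [lsize_nil]; omega
    · rw [lsize_cons, lsize_nil, Tm.size_mk, Tm.size_node]
      have h1 := lsize_dedup (List.ofFn fun i => R τ (f i) (!b)).flatten
      rw [lsize_flatten, List.map_ofFn, List.sum_ofFn] at h1
      have h2 := Finset.sum_le_sum fun i (_ : i ∈ Finset.univ) => ih i (!b)
      simp only [Function.comp] at h1
      omega

private theorem ht_R (t : Tm) (b : Bool) : ∀ u ∈ R τ t b, u = Tm.mk [] ∨ u.ht ≤ t.ht := by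
  classical
  induction t generalizing b with
  | lit l =>
    obtain ⟨w, s⟩ := l
    intro u hu
    rw [R_lit] at hu
    cases h : τ w with
    | inl v =>
      rw [Rl_inl τ h] at hu
      split at hu
      · left
        exact List.mem_singleton.1 hu
      · cases hu
    | inr x =>
      rw [Rl_inr τ h, List.mem_singleton] at hu
      subst hu
      right
      rw [Tm.ht_lit, Tm.ht_lit]
  | node n f ih =>
    intro u hu
    rw [R_node] at hu
    split at hu
    · cases hu
    · rename_i hC
      rw [List.mem_singleton] at hu
      subst hu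
      right
      have := Tm.ht_mk_le (L := (List.ofFn fun i => R τ (f i) (!b)).flatten.dedup)
        (b := Finset.univ.sup fun i => (f i).ht) (by
          intro v hv
          rw [List.mem_dedup] at hv
          have hv' := hv
          rw [List.mem_flatten] at hv
          obtain ⟨l, hl, hv⟩ := hv
          rw [List.mem_ofFn] at hl
          obtain ⟨i, rfl⟩ := hl
          rcases ih i _ v hv with h | h
          · exact absurd (h ▸ hv') hC
          · exact h.trans (Finset.le_sup (f := fun i => (f i).ht) (Finset.mem_univ i)))
      rw [Tm.ht_node]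
      exact this

private theorem RL_append (L M : Line) : RL τ (L ++ M) = RL τ L ++ RL τ M := by
  simp [RL]

private theorem RL_single (t : Tm) : RL τ [t] = R τ t true := by
  simp [RL]

private theorem mem_RL {t u : Tm} {L : Line} (h : t ∈ L) (hu : u ∈ R τ t true) : u ∈ RL τ L :=
  List.mem_flatMap.2 ⟨t, h, hu⟩

private theorem RL_subset {L M : Line} (h : L ⊆ M) : RL τ L ⊆ RL τ M := by
  intro u hu
  obtain ⟨t, ht, hu⟩ := List.mem_flatMap.1 hu
  exact mem_RL τ (h ht) hu

private theorem RL_ofFn {n : ℕ} (f : Fin n → Tm) :
    RL τ (List.ofFn f) = (List.ofFn fun i => R τ (f i) true).flatten := by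
  rw [RL, List.flatMap_def, List.map_ofFn]
  rfl

private theorem lsize_RL (L : Line) : lsize (RL τ L) ≤ lsize L := by
  induction L with
  | nil => exact le_rfl
  | cons t L ih =>
    have e : RL τ (t :: L) = R τ t true ++ RL τ L := by simp [RL]
    rw [e, lsize_append, lsize_cons]
    have := lsize_R τ t true
    omega

end

/-- one step: the restricted line is available already, or follows in one step -/
private theorem step_R (τ : ℕ → Bool ⊕ Lit) {F G : Fml}
    (hG : ∀ C ∈ G, Tm.mk [] ∈ RL τ C ∨ ∃ C₀ ∈ F, C₀ ⊆ RL τ C)
    {ρ ρ' : List Line} (hinv : ∀ M ∈ ρ, Has ρ' (RL τ M)) {L : Line} (hL : Step G ρ L)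
    (htop : Tm.mk [] ∉ RL τ L) : Has ρ' (RL τ L) ∨ Step F ρ' (RL τ L) := by
  classical
  have hHas : ∀ Y : Line, Has ρ (Y ++ L) → Has ρ' (RL τ Y ++ RL τ L) := by
    intro Y ⟨M, hM, hMY⟩
    refine (hinv M hM).mono ?_
    rw [← RL_append]
    exact RL_subset τ hMY
  cases hL with
  | ax w h1 h2 =>
    right
    cases hσ : τ w with
    | inl v =>
      exfalso
      apply htop
      cases v
      · refine mem_RL τ h2 ?_
        rw [R_lit, Rl_inl τ hσ, if_pos (by rfl)]
        exact List.mem_singleton.2 rfl
      · refine mem_RL τ h1 ?_
        rw [R_lit, Rl_inl τ hσ, if_pos (by rfl)]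
        exact List.mem_singleton.2 rfl
    | inr x =>
      obtain ⟨x1, x2⟩ := x
      have a1 : Tm.lit (x1, x2 == true) ∈ RL τ L := mem_RL τ h1 (by
        rw [R_lit, Rl_inr τ hσ]; exact List.mem_singleton.2 rfl)
      have a2 : Tm.lit (x1, x2 == false) ∈ RL τ L := mem_RL τ h2 (by
        rw [R_lit, Rl_inr τ hσ]; exact List.mem_singleton.2 rfl)
      cases x2
      · exact Step.ax x1 a2 a1
      · exact Step.ax x1 a1 a2
  | hyp C hC h =>
    right
    rcases hG C hC with h1 | ⟨C₀, hC₀, h1⟩
    · exact absurd (RL_subset τ h h1) htop
    · exact Step.hyp C₀ hC₀ (List.Subset.trans h1 (RL_subset τ h))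
  | and n f h h' =>
    set K : List Tm := (List.ofFn fun i => R τ (f i) (!true)).flatten with hK
    have hR : R τ (.node n f) true = if Tm.mk [] ∈ K then [] else [Tm.mk K.dedup] := R_node τ f true
    by_cases hK0 : Tm.mk [] ∈ K
    · left
      rw [hK, List.mem_flatten] at hK0
      obtain ⟨l, hl, hm⟩ := hK0
      rw [List.mem_ofFn] at hl
      obtain ⟨i, rfl⟩ := hl
      have hi := hHas _ (h' i)
      have hnil : RL τ (f i).parts = [] := by
        cases hfi : f i with
        | lit x =>
          obtain ⟨w, s⟩ := x
          rw [hfi, R_lit] at hm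
          rw [Tm.parts_lit, RL_single, R_lit]
          cases hσ : τ w with
          | inl v =>
            rw [Rl_inl τ hσ] at hm ⊢
            by_cases hv : (v == s) = !true
            · rw [if_neg]
              rw [hv]
              simp
            · rw [if_neg hv] at hm
              cases hm
          | inr x =>
            rw [Rl_inr τ hσ, List.mem_singleton] at hm
            cases hm
        | node m g =>
          rw [hfi, R_node] at hm
          split at hm
          · cases hm
          · rw [List.mem_singleton] at hm
            have h3 : (List.ofFn fun i => R τ (g i) (!!true)).flatten.dedup = [] := by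
              rw [← Tm.parts_mk (List.ofFn fun i => R τ (g i) (!!true)).flatten.dedup, ← hm,
                Tm.parts_mk]
            have h4 : (List.ofFn fun i => R τ (g i) (!!true)).flatten = [] := by
              rw [List.eq_nil_iff_forall_not_mem] at h3 ⊢
              intro a ha
              exact h3 a (List.mem_dedup.2 ha)
            rw [Tm.parts_node, RL_ofFn]
            exact h4
      rw [hnil] at hi
      exact hi
    · right
      rw [if_neg hK0] at hR
      refine Step.and _ _ (mem_RL τ h (by rw [hR]; exact List.mem_singleton.2 rfl)) fun j => ?_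
      have hj : K.dedup.get j ∈ K := List.mem_dedup.1 (List.get_mem _ j)
      generalize K.dedup.get j = u at hj
      have hju := hj
      rw [hK, List.mem_flatten] at hj
      obtain ⟨l, hl, hu⟩ := hj
      rw [List.mem_ofFn] at hl
      obtain ⟨i, rfl⟩ := hl
      refine (hHas _ (h' i)).mono ?_
      intro t ht
      rw [List.mem_append] at ht ⊢
      rcases ht with ht | ht
      · left
        cases hfi : f i with
        | lit x =>
          obtain ⟨w, s⟩ := x
          rw [hfi, R_lit] at hu
          rw [hfi, Tm.parts_lit, RL_single, R_lit] at ht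
          cases hσ : τ w with
          | inl v =>
            rw [Rl_inl τ hσ] at hu
            split at hu
            · rw [List.mem_singleton] at hu
              exact absurd (hu ▸ hju) hK0
            · cases hu
          | inr x =>
            rw [Rl_inr τ hσ, List.mem_singleton] at hu ht
            subst hu
            rw [Tm.parts_lit, List.mem_singleton]
            exact ht
        | node m g =>
          rw [hfi, R_node] at hu
          rw [hfi, Tm.parts_node, RL_ofFn] at ht
          split at hu
          · cases hu
          · rw [List.mem_singleton] at hu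
            subst hu
            rw [Tm.parts_mk, List.mem_dedup]
            exact ht
      · exact Or.inr ht
  | cut t h1 h2 =>
    have hH1 := hHas [t] h1
    have hH2 := hHas _ h2
    rw [RL_single] at hH1
    cases t with
    | lit x =>
      obtain ⟨w, s⟩ := x
      rw [Tm.neg_lit, Tm.parts_lit, RL_single, R_lit] at hH2
      rw [R_lit] at hH1
      have hH2' : Has ρ' (Rl τ (w, !s) true ++ RL τ L) := hH2
      cases hσ : τ w with
      | inl v =>
        left
        rw [Rl_inl τ hσ] at hH1 hH2'
        by_cases hv : (v == s) = true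
        · rw [if_neg (by revert hv; cases v <;> cases s <;> simp)] at hH2'
          exact hH2'
        · rw [if_neg hv] at hH1
          exact hH1
      | inr x =>
        right
        rw [Rl_inr τ hσ] at hH1 hH2'
        refine Step.cut (Tm.lit (x.1, x.2 == s)) hH1 ?_
        rw [Tm.neg_lit, Tm.parts_lit]
        have e : negl (x.1, x.2 == s) = (x.1, x.2 == !s) := by
          obtain ⟨x1, x2⟩ := x
          cases x2 <;> cases s <;> rfl
        rw [e]
        exact hH2'
    | node n f =>
      have hR := R_node τ f true
      set K : List Tm := (List.ofFn fun i => R τ (f i) (!true)).flatten with hK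
      have e : RL τ (Tm.node n f).neg.parts = K.map Tm.neg := by
        rw [Tm.neg_node, Tm.parts_node, RL_ofFn, hK, List.map_flatten, List.map_ofFn]
        congr 2
        funext i
        exact R_neg τ (f i) true
      by_cases hK0 : Tm.mk [] ∈ K
      · left
        rw [hR, if_pos hK0] at hH1
        exact hH1
      · right
        rw [hR, if_neg hK0] at hH1
        refine Step.cut (Tm.mk K.dedup) hH1 (hH2.mono ?_)
        rw [e, Tm.parts_neg_mk]
        intro t ht
        rw [List.mem_append] at ht ⊢
        rcases ht with ht | ht
        · left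
          rw [List.mem_map] at ht ⊢
          obtain ⟨a, ha, rfl⟩ := ht
          exact ⟨a, List.mem_dedup.2 ha, rfl⟩
        · exact Or.inr ht

theorem restr (τ : ℕ → Bool ⊕ Lit) {F G : Fml} {d : ℕ} (hd : 2 ≤ d)
    (hG : ∀ C ∈ G, Tm.mk [] ∈ RL τ C ∨ ∃ C₀ ∈ F, C₀ ⊆ RL τ C) :
    ∀ ρ : List Line, IsProof G d ρ → ∃ ρ' : List Line, IsProof F d ρ' ∧
      (∀ M ∈ ρ, Has ρ' (RL τ M)) ∧ psize ρ' ≤ psize ρ + 2 ∧
      ∀ M ∈ ρ', M = [Tm.mk []] ∨ (Tm.mk [] ∉ M ∧ ∃ L ∈ ρ, M = RL τ L) := by
  have key : ∀ ρ : List Line, IsProof G d ρ → ∃ ρ' : List Line, IsProof F d ρ' ∧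
      (∀ M ∈ ρ, Has ρ' (RL τ M)) ∧ Has ρ' [Tm.mk []] ∧ psize ρ' ≤ psize ρ + 2 ∧
      ∀ M ∈ ρ', M = [Tm.mk []] ∨ (Tm.mk [] ∉ M ∧ ∃ L ∈ ρ, M = RL τ L) := by
    intro ρ
    induction ρ with
    | nil =>
      intro _
      refine ⟨[[Tm.mk []]], ⟨trivial, ?_, ?_⟩, by simp, Has.head _ _, ?_, ?_⟩
      · exact Step.and 0 _ List.mem_cons_self fun i => i.elim0
      · intro t ht
        rw [List.mem_singleton] at ht
        subst ht
        have := Tm.ht_mk_le (L := []) (b := 0) (by simp)
        omega
      · rw [psize_cons, lsize_cons, lsize_nil, Tm.size_mk, lsize_nil, psize_nil]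
      · intro M hM
        left
        exact List.mem_singleton.1 hM
    | cons L ρ ih =>
      intro h
      obtain ⟨h1, h2, h3⟩ := h
      obtain ⟨ρ', g1, g2, g3, g4, g5⟩ := ih h1
      have hmono : ∀ M ∈ ρ', M = [Tm.mk []] ∨ (Tm.mk [] ∉ M ∧ ∃ L' ∈ L :: ρ, M = RL τ L') := by
        intro M hM
        rcases g5 M hM with h | ⟨h, L', hL', he⟩
        · exact Or.inl h
        · exact Or.inr ⟨h, L', List.mem_cons_of_mem _ hL', he⟩
      have hps : psize ρ' ≤ psize (L :: ρ) + 2 := by
        rw [psize_cons]; omega
      by_cases htop : Tm.mk [] ∈ RL τ L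
      · refine ⟨ρ', g1, ?_, g3, hps, hmono⟩
        intro M hM
        rw [List.mem_cons] at hM
        rcases hM with rfl | hM
        · refine g3.mono ?_
          intro t ht
          rw [List.mem_singleton] at ht
          subst ht
          exact htop
        · exact g2 M hM
      · rcases step_R τ hG g2 h2 htop with hh | hst
        · refine ⟨ρ', g1, ?_, g3, hps, hmono⟩
          intro M hM
          rw [List.mem_cons] at hM
          rcases hM with rfl | hM
          · exact hh
          · exact g2 M hM
        · refine ⟨RL τ L :: ρ', ⟨g1, hst, ?_⟩, ?_, g3.cons _, ?_, ?_⟩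
          · intro u hu
            have hu' := hu
            obtain ⟨t, ht, hu⟩ := List.mem_flatMap.1 hu
            rcases ht_R τ t true u hu with h | h
            · exact absurd (h ▸ hu') htop
            · have := h3 t ht; omega
          · intro M hM
            rw [List.mem_cons] at hM
            rcases hM with rfl | hM
            · exact Has.head _ _
            · exact (g2 M hM).cons _
          · rw [psize_cons, psize_cons]
            have := lsize_RL τ L
            omega
          · intro M hM
            rw [List.mem_cons] at hM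
            rcases hM with rfl | hM
            · exact Or.inr ⟨htop, L, List.mem_cons_self, rfl⟩
            · exact hmono M hM
  intro ρ hρ
  obtain ⟨ρ', g1, g2, _, g4, g5⟩ := key ρ hρ
  exact ⟨ρ', g1, g2, g4, g5⟩

end Pool.Agent.H80.HS
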