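import Mathlib
import Pool.Agent.H80.HS.Basic

set_option autoImplicit false

/-!
# HS XR: the clauses of `xorF F`

`xor_cnf`: all elements of clauses of `xorF F` are literals; a clause of `F` has at most 3 literals, each contributes two literals.
`xor_size`: a clause with at most 3 literals gives at most 8 clauses with at most 6 literals (`8 * 7 = 56`).
`xor_restr`: induction on the clause `C ∈ F` (elements are literals): every `D ∈ xorC C` satisfies: `mk [] ∈ RL (tau ω) D` or
`C ⊆ RL (tau ω) D`. For the literal `x = (v, s)`, `D` contains one of the two OR gates `Xl x false`, that is `(2v, a)` and `(2v+1, b)`; one of the two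
variables is fixed by `ω v`: if its literal becomes true, `mk [] ∈ ..` (`Rl`, `b = true`, value `==` sign); otherwise the other literal becomes
`x` (check the 2 x 2 x 2 x 2 cases: `s`, gate, fixed variable, value).
-/

namespace Pool.Agent.H80.HS

open Pool.Agent.H75.DH

private theorem lit_of_ht {t : Tm} (h : t.ht = 0) : ∃ l, t = Tm.lit l := by
  cases t with
  | lit l => exact ⟨l, rfl⟩
  | node n f => rw [Tm.ht_node] at h; omega

private theorem mem_Xl {l : Lit} {k : Tm} (h : k ∈ X (Tm.lit l) false) :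
    ∃ a b : Bool, k.parts = [Tm.lit (2 * l.1, a), Tm.lit (2 * l.1 + 1, b)] ∧
      ((a = true ∧ b = l.2) ∨ (a = false ∧ b = !l.2)) := by
  rw [X, Xl, List.mem_cons, List.mem_singleton] at h
  rcases h with rfl | rfl
  · exact ⟨false, _, Tm.parts_mk _, Or.inr ⟨rfl, rfl⟩⟩
  · exact ⟨true, _, Tm.parts_mk _, Or.inl ⟨rfl, rfl⟩⟩

private theorem mem_xorC_cons {t : Tm} {L D : Line} (h : D ∈ xorC (t :: L)) :
    ∃ k ∈ X t false, ∃ r ∈ xorC L, D = k.parts ++ r := by
  rw [xorC, List.mem_flatMap] at h
  obtain ⟨k, hk, h⟩ := h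
  rw [List.mem_map] at h
  obtain ⟨r, hr, rfl⟩ := h
  exact ⟨k, hk, r, hr, rfl⟩

private theorem xorC_mem : ∀ (C : Line), (∀ t ∈ C, t.ht = 0) → ∀ D ∈ xorC C,
    (∀ t ∈ D, t.ht = 0) ∧ D.length = 2 * C.length := by
  intro C
  induction C with
  | nil =>
    intro _ D hD
    rw [xorC, List.mem_singleton] at hD
    subst hD
    simp
  | cons t L ih =>
    intro hC D hD
    obtain ⟨k, hk, r, hr, rfl⟩ := mem_xorC_cons hD
    obtain ⟨l, rfl⟩ := lit_of_ht (hC t (by simp))
    obtain ⟨a, b, hp, _⟩ := mem_Xl hk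
    obtain ⟨h1, h2⟩ := ih (fun t ht => hC t (by simp [ht])) r hr
    rw [hp]
    refine ⟨?_, ?_⟩
    · intro t ht
      rw [List.mem_append] at ht
      rcases ht with ht | ht
      · rw [List.mem_cons, List.mem_singleton] at ht
        rcases ht with rfl | rfl <;> rfl
      · exact h1 t ht
    · rw [List.length_append, h2, List.length_cons]
      simp only [List.length_cons, List.length_nil]
      omega

private theorem xorC_length : ∀ (C : Line), (∀ t ∈ C, t.ht = 0) →
    (xorC C).length = 2 ^ C.length := by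
  intro C
  induction C with
  | nil => intro _; rfl
  | cons t L ih =>
    intro hC
    obtain ⟨l, rfl⟩ := lit_of_ht (hC t (by simp))
    have h := ih fun t ht => hC t (by simp [ht])
    rw [xorC, X, Xl, List.flatMap_cons, List.flatMap_cons, List.flatMap_nil, List.append_nil,
      List.length_append, List.length_map, List.length_map, h, List.length_cons, pow_succ]
    omega

private theorem lsize_of_ht : ∀ (D : Line), (∀ t ∈ D, t.ht = 0) → lsize D = D.length := by
  intro D
  induction D with
  | nil => intro _; rfl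
  | cons t L ih =>
    intro hD
    obtain ⟨l, rfl⟩ := lit_of_ht (hD t (by simp))
    rw [lsize_cons, Tm.size_lit, ih fun t ht => hD t (by simp [ht]), List.length_cons]
    omega

private theorem psize_le_mul {B : ℕ} : ∀ (π : List Line), (∀ L ∈ π, 1 + lsize L ≤ B) →
    psize π ≤ π.length * B := by
  intro π
  induction π with
  | nil => intro _; simp [psize]
  | cons L π ih =>
    intro h
    rw [psize_cons, List.length_cons, Nat.add_mul, Nat.one_mul]
    have h1 := h L (by simp)
    have h2 := ih fun M hM => h M (by simp [hM])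
    omega

private theorem ht_of_cnf {w : ℕ} {F : Fml} (hF : Cnf w F) {C : Line} (hC : C ∈ F) :
    ∀ t ∈ C, t.ht = 0 := by
  intro t ht
  have := hF.1 C hC t ht
  omega

theorem xor_cnf {F : Fml} (hF : Cnf 3 F) : Cnf 6 (xorF F) := by
  refine ⟨?_, ?_⟩
  · intro D hD t ht
    rw [xorF, List.mem_flatMap] at hD
    obtain ⟨C, hC, hD⟩ := hD
    have := (xorC_mem C (ht_of_cnf hF hC) D hD).1 t ht
    omega
  · intro D hD
    rw [xorF, List.mem_flatMap] at hD
    obtain ⟨C, hC, hD⟩ := hD
    have h1 := (xorC_mem C (ht_of_cnf hF hC) D hD).2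
    have h2 := hF.2 C hC
    omega

private theorem psize_flatMap : ∀ (F : Fml), (∀ C ∈ F, psize (xorC C) ≤ 56) →
    psize (F.flatMap xorC) ≤ 56 * F.length := by
  intro F
  induction F with
  | nil => intro _; simp [psize]
  | cons C F ih =>
    intro h
    rw [List.flatMap_cons, psize_append, List.length_cons]
    have h1 := h C (by simp)
    have h2 := ih fun D hD => h D (by simp [hD])
    omega

theorem xor_size {F : Fml} (hF : Cnf 3 F) : psize (xorF F) ≤ 56 * psize F := by
  have key : ∀ C ∈ F, psize (xorC C) ≤ 56 := by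
    intro C hC
    have h0 := ht_of_cnf hF hC
    have h3 := hF.2 C hC
    have h1 : psize (xorC C) ≤ (xorC C).length * 7 := by
      refine psize_le_mul _ fun D hD => ?_
      obtain ⟨g1, g2⟩ := xorC_mem C h0 D hD
      rw [lsize_of_ht D g1]
      omega
    have h2 : (xorC C).length ≤ 2 ^ 3 := by
      rw [xorC_length C h0]
      exact Nat.pow_le_pow_right (by norm_num) h3
    omega
  have h1 := psize_flatMap F key
  have h2 := length_le_psize F
  rw [xorF]
  omega

private theorem RL_append (τ : ℕ → Bool ⊕ Lit) (L M : Line) : RL τ (L ++ M) = RL τ L ++ RL τ M := by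
  rw [RL, RL, RL, List.flatMap_append]

private theorem tau_even (ω : ℕ → Bool × Bool) (v : ℕ) : tau ω (2 * v) =
    if (ω v).1 = false then Sum.inl (ω v).2 else Sum.inr (v, !(ω v).2) := by
  have h1 : (2 * v) / 2 = v := by omega
  have h2 : ¬ ((2 * v) % 2 = 1) := by omega
  rw [tau, h1, decide_eq_false h2]
  cases (ω v).1 <;> rfl

private theorem tau_odd (ω : ℕ → Bool × Bool) (v : ℕ) : tau ω (2 * v + 1) =
    if (ω v).1 = true then Sum.inl (ω v).2 else Sum.inr (v, !(ω v).2) := by
  have h1 : (2 * v + 1) / 2 = v := by omega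
  have h2 : (2 * v + 1) % 2 = 1 := by omega
  rw [tau, h1, decide_eq_true h2]
  cases (ω v).1 <;> rfl

private theorem restr_one (ω : ℕ → Bool × Bool) (l : Lit) (a b : Bool)
    (h : (a = true ∧ b = l.2) ∨ (a = false ∧ b = !l.2)) :
    Tm.mk [] ∈ RL (tau ω) [Tm.lit (2 * l.1, a), Tm.lit (2 * l.1 + 1, b)] ∨
      Tm.lit l ∈ RL (tau ω) [Tm.lit (2 * l.1, a), Tm.lit (2 * l.1 + 1, b)] := by
  obtain ⟨v, s⟩ := l
  have e : RL (tau ω) [Tm.lit (2 * v, a), Tm.lit (2 * v + 1, b)] =
      Rl (tau ω) (2 * v, a) true ++ Rl (tau ω) (2 * v + 1, b) true := by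
    rw [RL, List.flatMap_cons, List.flatMap_cons, List.flatMap_nil, List.append_nil, R, R]
  rw [e]
  have ho := tau_odd ω v
  have he := tau_even ω v
  rcases hw : ω v with ⟨c, w⟩
  rw [hw] at ho he
  cases c with
  | false =>
    have he' : tau ω (2 * v) = Sum.inl w := he
    have ho' : tau ω (2 * v + 1) = Sum.inr (v, !w) := ho
    have e1 : Rl (tau ω) (2 * v, a) true = if (w == a) = true then [Tm.mk []] else [] := by
      rw [Rl, he']
    have e2 : Rl (tau ω) (2 * v + 1, b) true = [Tm.lit (v, (!w) == b)] := by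
      rw [Rl, ho']
    rw [e1, e2]
    rcases h with ⟨ha, hb⟩ | ⟨ha, hb⟩ <;> simp only at hb <;> rw [ha, hb] <;> cases w <;>
      cases s <;> simp
  | true =>
    have he' : tau ω (2 * v) = Sum.inr (v, !w) := he
    have ho' : tau ω (2 * v + 1) = Sum.inl w := ho
    have e1 : Rl (tau ω) (2 * v, a) true = [Tm.lit (v, (!w) == a)] := by
      rw [Rl, he']
    have e2 : Rl (tau ω) (2 * v + 1, b) true = if (w == b) = true then [Tm.mk []] else [] := by
      rw [Rl, ho']
    rw [e1, e2]
    rcases h with ⟨ha, hb⟩ | ⟨ha, hb⟩ <;> simp only at hb <;> rw [ha, hb] <;> cases w <;>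
      cases s <;> simp

theorem xor_restr (ω : ℕ → Bool × Bool) {F : Fml} (hF : Cnf 3 F) :
    ∀ C ∈ xorF F, Tm.mk [] ∈ RL (tau ω) C ∨ ∃ C₀ ∈ F, C₀ ⊆ RL (tau ω) C := by
  have key : ∀ (C : Line), (∀ t ∈ C, t.ht = 0) → ∀ D ∈ xorC C,
      Tm.mk [] ∈ RL (tau ω) D ∨ C ⊆ RL (tau ω) D := by
    intro C
    induction C with
    | nil => intro _ D _; exact Or.inr (List.nil_subset _)
    | cons t L ih =>
      intro hC D hD
      obtain ⟨k, hk, r, hr, rfl⟩ := mem_xorC_cons hD
      obtain ⟨l, rfl⟩ := lit_of_ht (hC t (by simp))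
      obtain ⟨a, b, hp, hab⟩ := mem_Xl hk
      rw [hp, RL_append]
      rcases ih (fun t ht => hC t (by simp [ht])) r hr with h1 | h1
      · exact Or.inl (List.mem_append_right _ h1)
      · rcases restr_one ω l a b hab with h2 | h2
        · exact Or.inl (List.mem_append_left _ h2)
        · refine Or.inr fun t ht => ?_
          rw [List.mem_cons] at ht
          rcases ht with rfl | ht
          · exact List.mem_append_left _ h2
          · exact List.mem_append_right _ (h1 ht)
  intro D hD
  rw [xorF, List.mem_flatMap] at hD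
  obtain ⟨C, hC, hD⟩ := hD
  rcases key C (ht_of_cnf hF hC) D hD with h | h
  · exact Or.inl h
  · exact Or.inr ⟨C, hC, h⟩

end Pool.Agent.H80.HS
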