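import Mathlib
import Pool.Agent.H80.HS.Basic

set_option autoImplicit false

/-!
# HS XorUp: replacing every variable by a sum of two variables raises the depth by one

`T`: lines derivable from a proof by at most `N` new lines of size less than `q`, all of whose trees
are narrow (bottom fan-in at most two). `T.run`: the new lines can be added to the proof.
`four`: from the four clauses `±y0, ±y1` (with a line `Γ`) to `Γ`. `andIn`: the clause belonging to a
gate of `Γ`. `litDown`: from the two AND gates of a literal to its two clauses. `hypT`: from the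
clauses of `xorC C` to the gates of the elements of `C`. `xstep`: one step of the given refutation.
-/

namespace Pool.Agent.H80.HS

open Pool.Agent.H75.DH

/-! ### Derivations with a bounded number of new lines -/

/-- all trees are narrow -/
private def Nar (D : ℕ) (X : Line) : Prop := ∀ t ∈ X, Narrow 2 t D

private def PN (F : Fml) (D : ℕ) (π : List Line) : Prop :=
  IsProof F (D + 1) π ∧ ∀ L ∈ π, Nar D L

private theorem ht_narrow {k : ℕ} (t : Tm) : ∀ h : ℕ, Narrow k t h → t.ht ≤ h := by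
  induction t with
  | lit l => intro h _; rw [Tm.ht_lit]; omega
  | node n f ih =>
    intro h hN
    obtain ⟨h1, _, h3⟩ := hN
    rw [Tm.ht_node]
    have : (Finset.univ.sup fun i => (f i).ht) ≤ h - 1 :=
      Finset.sup_le fun i _ => ih i (h - 1) (h3 i)
    omega

private theorem narrow_mk {k h : ℕ} {K : List Tm} (h1 : 1 ≤ h) (h2 : h = 1 → K.length ≤ k)
    (h3 : ∀ t ∈ K, Narrow k t (h - 1)) : Narrow k (Tm.mk K) h :=
  ⟨h1, h2, fun i => h3 _ (List.get_mem K i)⟩

private theorem PN.cons {F : Fml} {D : ℕ} {π : List Line} (h : PN F D π) {L : Line}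
    (hs : Step F π L) (hL : Nar D L) : PN F D (L :: π) := by
  refine ⟨isProof_cons h.1 hs fun t ht => ?_, ?_⟩
  · have := ht_narrow t D (hL t ht)
    omega
  · intro M hM
    rw [List.mem_cons] at hM
    rcases hM with rfl | hM
    · exact hL
    · exact h.2 M hM

private theorem nar_lit {D : ℕ} (l : Lit) {X : Line} (h : Nar D X) : Nar D (Tm.lit l :: X) := by
  intro t ht
  rw [List.mem_cons] at ht
  rcases ht with rfl | ht
  · trivial
  · exact h t ht

/-- lines derivable from `π` by at most `N` new lines of size less than `q` -/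
private inductive T (F : Fml) (D q : ℕ) (π : List Line) : Line → ℕ → Prop
  | has {X : Line} {N : ℕ} (h : Has π X) : T F D q π X N
  | ax {X : Line} {N : ℕ} (hO : Nar D X) (hq : 1 + lsize X ≤ q) (v : ℕ)
      (h1 : Tm.lit (v, true) ∈ X) (h2 : Tm.lit (v, false) ∈ X) (hN : 1 ≤ N) : T F D q π X N
  | hyp {X : Line} {N : ℕ} (hO : Nar D X) (hq : 1 + lsize X ≤ q) (C : Line) (hC : C ∈ F)
      (h : C ⊆ X) (hN : 1 ≤ N) : T F D q π X N
  | and {X : Line} {N : ℕ} (hO : Nar D X) (hq : 1 + lsize X ≤ q) (K : List Tm)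
      (hK : Tm.mk K ∈ X) (B : ℕ) (h : ∀ k ∈ K, T F D q π (k.parts ++ X) B)
      (hN : K.length * B + 1 ≤ N) : T F D q π X N
  | cut {X : Line} {N : ℕ} (hO : Nar D X) (hq : 1 + lsize X ≤ q) (t : Tm) {N₁ N₂ : ℕ}
      (h1 : T F D q π (t :: X) N₁) (h2 : T F D q π (t.neg.parts ++ X) N₂)
      (hN : N₁ + N₂ + 1 ≤ N) : T F D q π X N

private theorem T.run {F : Fml} {D q : ℕ} {π : List Line} {X : Line} {N : ℕ}
    (h : T F D q π X N) : ∀ δ₀, PN F D (δ₀ ++ π) →
      ∃ δ, PN F D (δ ++ (δ₀ ++ π)) ∧ Has (δ ++ (δ₀ ++ π)) X ∧ psize δ ≤ N * q := by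
  have fin : ∀ {X : Line} {N : ℕ} (_ : Nar D X) (_ : 1 + lsize X ≤ q) (δ₀ δ : List Line),
      PN F D (δ ++ (δ₀ ++ π)) → Step F (δ ++ (δ₀ ++ π)) X → psize δ + q ≤ N * q →
      ∃ δ, PN F D (δ ++ (δ₀ ++ π)) ∧ Has (δ ++ (δ₀ ++ π)) X ∧ psize δ ≤ N * q := by
    intro X N hO hq δ₀ δ h1 h2 h3
    refine ⟨X :: δ, h1.cons h2 hO, Has.head _ _, ?_⟩
    rw [psize_cons]
    omega
  have one : ∀ {N : ℕ}, 1 ≤ N → psize [] + q ≤ N * q := by
    intro N hN
    rw [psize_nil]
    have := Nat.mul_le_mul_right q hN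
    omega
  induction h with
  | has h => intro δ₀ h0; exact ⟨[], h0, h.ext δ₀, by rw [psize_nil]; omega⟩
  | ax hO hq v h1 h2 hN =>
    intro δ₀ h0
    exact fin hO hq δ₀ [] h0 (Step.ax v h1 h2) (one hN)
  | hyp hO hq C hC h hN =>
    intro δ₀ h0
    exact fin hO hq δ₀ [] h0 (Step.hyp C hC h) (one hN)
  | @and X N hO hq K hK B h hN ih =>
    intro δ₀ h0
    have key : ∀ K' : List Tm, K' ⊆ K → ∃ δ, PN F D (δ ++ (δ₀ ++ π)) ∧
        (∀ k ∈ K', Has (δ ++ (δ₀ ++ π)) (k.parts ++ X)) ∧ psize δ ≤ K'.length * (B * q) := by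
      intro K'
      induction K' with
      | nil => intro _; exact ⟨[], h0, by simp, by rw [psize_nil]; omega⟩
      | cons k K' ih' =>
        intro hsub
        obtain ⟨δ, g1, g2, g3⟩ := ih' fun x hx => hsub (List.mem_cons_of_mem _ hx)
        obtain ⟨δ', k1, k2, k3⟩ := ih k (hsub List.mem_cons_self) (δ ++ δ₀)
          (by rw [List.append_assoc]; exact g1)
        rw [List.append_assoc] at k1 k2
        refine ⟨δ' ++ δ, by rw [List.append_assoc]; exact k1, ?_, ?_⟩
        · intro x hx
          rw [List.append_assoc]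
          rw [List.mem_cons] at hx
          rcases hx with rfl | hx
          · exact k2
          · exact (g2 x hx).ext δ'
        · rw [psize_append, List.length_cons, Nat.add_mul, Nat.one_mul]
          omega
    obtain ⟨δ, g1, g2, g3⟩ := key K fun _ h => h
    refine fin hO hq δ₀ δ g1 (Step.and _ _ hK fun i => g2 _ (List.get_mem K i)) ?_
    have := Nat.mul_le_mul_right q hN
    rw [Nat.add_mul, Nat.one_mul, Nat.mul_assoc] at this
    omega
  | @cut X N hO hq t N₁ N₂ h1 h2 hN ih1 ih2 =>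
    intro δ₀ h0
    obtain ⟨δ, g1, g2, g3⟩ := ih1 δ₀ h0
    obtain ⟨δ', k1, k2, k3⟩ := ih2 (δ ++ δ₀) (by rw [List.append_assoc]; exact g1)
    rw [List.append_assoc] at k1 k2
    refine fin hO hq δ₀ (δ' ++ δ) (by rw [List.append_assoc]; exact k1)
      (by rw [List.append_assoc]; exact Step.cut t (g2.ext δ') k2) ?_
    rw [psize_append]
    have := Nat.mul_le_mul_right q hN
    rw [Nat.add_mul, Nat.add_mul, Nat.one_mul] at this
    omega

/-! ### Clauses over two variables -/

section

variable {F : Fml} {D q : ℕ} {π : List Line}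

private theorem lsize_lit (l : Lit) (X : Line) : lsize (Tm.lit l :: X) = lsize X + 1 := by
  rw [lsize_cons, Tm.size_lit]; omega

/-- From the four clauses over `y0 = u`, `y1 = v`. -/
private theorem four {Γ : Line} (hΓ : Nar D Γ) (hq : lsize Γ + 2 ≤ q) {u v N : ℕ}
    (h : ∀ a b, T F D q π (Tm.lit (u, a) :: Tm.lit (v, b) :: Γ) N) :
    T F D q π Γ (4 * N + 3) := by
  have h1 : ∀ b, T F D q π (Tm.lit (v, b) :: Γ) (2 * N + 1) := by
    intro b
    exact T.cut (nar_lit _ hΓ) (by rw [lsize_lit]; omega) (Tm.lit (u, true)) (h true b) (h false b)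
      (by omega)
  exact T.cut hΓ (by omega) (Tm.lit (v, true)) (h1 true) (h1 false) (by omega)

private theorem axs {Γ : Line} (hΓ : Nar D Γ) (hq : 1 + lsize Γ ≤ q) (l : Lit)
    (h1 : Tm.lit l ∈ Γ) (h2 : Tm.lit (negl l) ∈ Γ) : T F D q π Γ 1 := by
  obtain ⟨v, b⟩ := l
  cases b
  · exact T.ax hΓ hq v h2 h1 le_rfl
  · exact T.ax hΓ hq v h1 h2 le_rfl

/-- the clause of a gate of `Γ` -/
private theorem andIn {Γ : Line} (hΓ : Nar D Γ) (hq : lsize Γ + 4 ≤ q) {a b : Lit}
    (hg : Tm.mk [Tm.lit a, Tm.lit b] ∈ Γ) :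
    T F D q π (Tm.lit (negl a) :: Tm.lit (negl b) :: Γ) 3 := by
  have hn := nar_lit (negl a) (nar_lit (negl b) hΓ)
  refine T.and hn (by rw [lsize_lit, lsize_lit]; omega) [Tm.lit a, Tm.lit b]
    (List.mem_cons_of_mem _ (List.mem_cons_of_mem _ hg)) 1 ?_ (by simp)
  intro k hk
  rw [List.mem_cons, List.mem_singleton] at hk
  rcases hk with rfl | rfl
  · rw [Tm.parts_lit]
    refine axs (nar_lit _ hn) ?_ a List.mem_cons_self ?_
    · show 1 + lsize (Tm.lit a :: Tm.lit (negl a) :: Tm.lit (negl b) :: Γ) ≤ q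
      rw [lsize_lit, lsize_lit, lsize_lit]; omega
    · exact List.mem_cons_of_mem _ List.mem_cons_self
  · rw [Tm.parts_lit]
    refine axs (nar_lit _ hn) ?_ b List.mem_cons_self ?_
    · show 1 + lsize (Tm.lit b :: Tm.lit (negl a) :: Tm.lit (negl b) :: Γ) ≤ q
      rw [lsize_lit, lsize_lit, lsize_lit]; omega
    · exact List.mem_cons_of_mem _ (List.mem_cons_of_mem _ List.mem_cons_self)

/-- remove a gate one of whose literals is in the line -/
private theorem cutGate {Λ : Line} (hΛ : Nar D Λ) (hq : lsize Λ + 3 ≤ q) {a b : Lit} {N : ℕ}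
    (h : Tm.lit a ∈ Λ ∨ Tm.lit b ∈ Λ) (hg : T F D q π (Tm.mk [Tm.lit a, Tm.lit b] :: Λ) N) :
    T F D q π Λ (N + 2) := by
  refine T.cut hΛ (by omega) _ hg (N₂ := 1) ?_ le_rfl
  rw [Tm.parts_neg_mk]
  have e : [Tm.lit a, Tm.lit b].map Tm.neg ++ Λ = Tm.lit (negl a) :: Tm.lit (negl b) :: Λ := rfl
  rw [e]
  have hn := nar_lit (negl a) (nar_lit (negl b) hΛ)
  have hs : 1 + lsize (Tm.lit (negl a) :: Tm.lit (negl b) :: Λ) ≤ q := by
    rw [lsize_lit, lsize_lit]; omega
  rcases h with h | h
  · exact axs hn hs a (List.mem_cons_of_mem _ (List.mem_cons_of_mem _ h)) List.mem_cons_self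
  · exact axs hn hs b (List.mem_cons_of_mem _ (List.mem_cons_of_mem _ h))
      (List.mem_cons_of_mem _ List.mem_cons_self)

end

/-! ### The translation -/

private theorem X_lit (l : Lit) (b : Bool) : X (.lit l) b = Xl l b := rfl

private theorem X_node {n : ℕ} (f : Fin n → Tm) (b : Bool) :
    X (.node n f) b = [Tm.mk (List.ofFn fun i => X (f i) (!b)).flatten] := rfl

private theorem X_neg (t : Tm) (b : Bool) : X t.neg b = (X t (!b)).map Tm.neg := by
  induction t generalizing b with
  | lit l =>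
    rw [Tm.neg_lit, X_lit, X_lit, Xl, Xl, List.map_cons, List.map_cons, List.map_nil, Tm.neg_mk,
      Tm.neg_mk]
    simp [negl]
  | node n f ih =>
    rw [Tm.neg_node, X_node, X_node, List.map_cons, List.map_nil, Tm.neg_mk, List.map_flatten,
      List.map_ofFn]
    congr 3
    congr 1
    funext i
    exact ih i _

private theorem narrow_X (t : Tm) : ∀ (b : Bool) (h : ℕ), t.ht + 1 ≤ h →
    ∀ u ∈ X t b, Narrow 2 u h := by
  induction t with
  | lit l =>
    intro b h hh u hu
    rw [X_lit, Xl, List.mem_cons, List.mem_singleton] at hu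
    rcases hu with rfl | rfl
    · refine narrow_mk (by omega) (fun _ => le_rfl) ?_
      intro t ht
      rw [List.mem_cons, List.mem_singleton] at ht
      rcases ht with rfl | rfl <;> trivial
    · refine narrow_mk (by omega) (fun _ => le_rfl) ?_
      intro t ht
      rw [List.mem_cons, List.mem_singleton] at ht
      rcases ht with rfl | rfl <;> trivial
  | node n f ih =>
    intro b h hh u hu
    rw [X_node, List.mem_singleton] at hu
    subst hu
    rw [Tm.ht_node] at hh
    refine narrow_mk (by omega) (fun h1 => by omega) ?_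
    intro t ht
    rw [List.mem_flatten] at ht
    obtain ⟨l, hl, ht⟩ := ht
    rw [List.mem_ofFn] at hl
    obtain ⟨i, rfl⟩ := hl
    have h2 := Finset.le_sup (f := fun i => (f i).ht) (Finset.mem_univ i)
    exact ih i _ (h - 1) (by omega) t ht

private theorem lsize_Xl (l : Lit) (b : Bool) : lsize (Xl l b) = 6 := by
  rw [Xl, lsize_cons, lsize_cons, lsize_nil, Tm.size_mk, Tm.size_mk]
  rfl

private theorem lsize_X (t : Tm) : ∀ b : Bool, lsize (X t b) ≤ 6 * t.size := by
  induction t with
  | lit l => intro b; rw [X_lit, lsize_Xl, Tm.size_lit]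
  | node n f ih =>
    intro b
    rw [X_node, lsize_cons, lsize_nil, Tm.size_mk, lsize_flatten, List.map_ofFn, List.sum_ofFn,
      Tm.size_node, Nat.mul_add, Finset.mul_sum]
    have := Finset.sum_le_sum fun i (_ : i ∈ Finset.univ) => ih i (!b)
    simp only [Function.comp]
    omega

private theorem XL_append (L M : Line) : XL (L ++ M) = XL L ++ XL M := by
  simp [XL]

private theorem XL_cons (t : Tm) (M : Line) : XL (t :: M) = X t true ++ XL M := by
  simp [XL]

private theorem XL_nil : XL [] = [] := rfl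

private theorem XL_single (t : Tm) : XL [t] = X t true := by
  rw [XL_cons, XL_nil, List.append_nil]

private theorem mem_XL {t u : Tm} {L : Line} (h : t ∈ L) (hu : u ∈ X t true) : u ∈ XL L :=
  List.mem_flatMap.2 ⟨t, h, hu⟩

private theorem XL_subset {L M : Line} (h : L ⊆ M) : XL L ⊆ XL M := by
  intro u hu
  obtain ⟨t, ht, hu⟩ := List.mem_flatMap.1 hu
  exact mem_XL (h ht) hu

private theorem XL_ofFn {n : ℕ} (f : Fin n → Tm) :
    XL (List.ofFn f) = (List.ofFn fun i => X (f i) true).flatten := by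
  rw [XL, List.flatMap_def, List.map_ofFn]
  rfl

private theorem lsize_XL (L : Line) : lsize (XL L) ≤ 6 * lsize L := by
  induction L with
  | nil => rw [XL_nil, lsize_nil]
  | cons t L ih =>
    rw [XL_cons, lsize_append, lsize_cons, Nat.mul_add]
    have := lsize_X t true
    omega

private theorem nar_XL {D : ℕ} {L : Line} (h : ∀ t ∈ L, t.ht < D) : Nar D (XL L) := by
  intro u hu
  obtain ⟨t, ht, hu⟩ := List.mem_flatMap.1 hu
  exact narrow_X t true D (h t ht) u hu

/-! ### The steps -/

section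

variable {F : Fml} {D q : ℕ} {π : List Line}

/-- from the two gates of a literal to its two clauses -/
private theorem litDown {Γ : Line} (hD : 1 ≤ D) (hΓ : Nar D Γ) (hq : lsize Γ + 9 ≤ q) (l : Lit)
    (h : Has π (X (.lit l) true ++ Γ)) {k : Tm} (hk : k ∈ X (.lit l) false) :
    T F D q π (k.parts ++ Γ) 4 := by
  obtain ⟨v, s⟩ := l
  rw [X_lit, Xl] at h hk
  have hn : ∀ a b : Lit, Nar D (Tm.mk [Tm.lit a, Tm.lit b] :: Γ) := by
    intro a b t ht
    rw [List.mem_cons] at ht
    rcases ht with rfl | ht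
    · refine narrow_mk hD (fun _ => le_rfl) ?_
      intro t ht
      rw [List.mem_cons, List.mem_singleton] at ht
      rcases ht with rfl | rfl <;> trivial
    · exact hΓ t ht
  have key : ∀ a b : Lit, (Tm.lit (2 * v, true) ∈ [Tm.lit a, Tm.lit b] ∨
      Tm.lit (2 * v + 1, !s) ∈ [Tm.lit a, Tm.lit b]) →
      (Tm.lit (2 * v, false) ∈ [Tm.lit a, Tm.lit b] ∨
      Tm.lit (2 * v + 1, s) ∈ [Tm.lit a, Tm.lit b]) →
      T F D q π ([Tm.lit a, Tm.lit b] ++ Γ) 4 := by
    intro a b h1 h2
    have hΛ : Nar D ([Tm.lit a, Tm.lit b] ++ Γ) := nar_lit _ (nar_lit _ hΓ)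
    have hs : lsize ([Tm.lit a, Tm.lit b] ++ Γ) = lsize Γ + 2 := by
      show lsize (Tm.lit a :: Tm.lit b :: Γ) = _
      rw [lsize_lit, lsize_lit]
    refine cutGate (a := (2 * v, true)) (b := (2 * v + 1, !s)) (N := 2) hΛ (by rw [hs]; omega)
      (h1.imp (fun h => List.mem_append_left _ h) fun h => List.mem_append_left _ h) ?_
    refine cutGate (a := (2 * v, false)) (b := (2 * v + 1, s)) (N := 0) ?_ ?_
      (h2.imp (fun h => List.mem_cons_of_mem _ (List.mem_append_left _ h))
        fun h => List.mem_cons_of_mem _ (List.mem_append_left _ h)) ?_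
    · intro t ht
      rw [List.mem_cons] at ht
      rcases ht with rfl | ht
      · exact hn _ _ _ List.mem_cons_self
      · exact hΛ t ht
    · rw [lsize_cons, hs, Tm.size_mk, lsize_lit, lsize_lit, lsize_nil]
      omega
    · refine T.has (h.mono ?_)
      intro t ht
      rw [List.mem_append] at ht
      rcases ht with ht | ht
      · rw [List.mem_cons, List.mem_singleton] at ht
        rcases ht with rfl | rfl
        · exact List.mem_cons_of_mem _ List.mem_cons_self
        · exact List.mem_cons_self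
      · exact List.mem_cons_of_mem _ (List.mem_cons_of_mem _ (List.mem_append_right _ ht))
  rw [List.mem_cons, List.mem_singleton] at hk
  rcases hk with rfl | rfl
  · rw [Tm.parts_mk]
    exact key _ _ (Or.inr (by simp)) (Or.inl (by simp))
  · rw [Tm.parts_mk]
    exact key _ _ (Or.inl (by simp)) (Or.inr (by simp))

private theorem T.le {X : Line} {N N' : ℕ} (h : T F D q π X N) (hN' : N ≤ N') :
    T F D q π X N' := by
  cases h with
  | has h => exact T.has h
  | ax hO hq v h1 h2 hN => exact T.ax hO hq v h1 h2 (hN.trans hN')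
  | hyp hO hq C hC h hN => exact T.hyp hO hq C hC h (hN.trans hN')
  | and hO hq K hK B h hN => exact T.and hO hq K hK B h (hN.trans hN')
  | cut hO hq t h1 h2 hN => exact T.cut hO hq t h1 h2 (hN.trans hN')

private theorem X_form {l : Lit} {b : Bool} {k : Tm} (hk : k ∈ X (.lit l) b) :
    ∃ x y : Lit, k = Tm.mk [Tm.lit x, Tm.lit y] := by
  rw [X_lit, Xl, List.mem_cons, List.mem_singleton] at hk
  rcases hk with rfl | rfl
  · exact ⟨_, _, rfl⟩
  · exact ⟨_, _, rfl⟩

/-- resolve the clauses of a literal and of its negation -/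
private theorem fourLit {Γ : Line} (hΓ : Nar D Γ) (hq : lsize Γ + 2 ≤ q) {w : ℕ} {s : Bool}
    {N : ℕ} (h1 : ∀ k ∈ X (.lit (w, s)) false, T F D q π (k.parts ++ Γ) N)
    (h2 : ∀ k ∈ X (.lit (w, !s)) false, T F D q π (k.parts ++ Γ) N) :
    T F D q π Γ (4 * N + 3) := by
  refine four (u := 2 * w) (v := 2 * w + 1) hΓ hq fun a b => ?_
  have e : Tm.mk [Tm.lit (2 * w, a), Tm.lit (2 * w + 1, b)] ∈ X (.lit (w, s)) false ∨
      Tm.mk [Tm.lit (2 * w, a), Tm.lit (2 * w + 1, b)] ∈ X (.lit (w, !s)) false := by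
    cases a <;> cases b <;> cases s <;> simp [X_lit, Xl]
  rcases e with e | e
  · have := h1 _ e
    rwa [Tm.parts_mk] at this
  · have := h2 _ e
    rwa [Tm.parts_mk] at this

/-- the clauses of the negation of a literal whose gates are in the line -/
private theorem andX {Γ : Line} (hΓ : Nar D Γ) (hq : lsize Γ + 4 ≤ q) {l : Lit}
    (h : X (.lit l) true ⊆ Γ) {k : Tm} (hk : k ∈ X (.lit (negl l)) false) :
    T F D q π (k.parts ++ Γ) 3 := by
  have h1 : X (.lit (negl l)) false = (X (.lit l) true).map Tm.neg := X_neg (.lit l) false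
  rw [h1, List.mem_map] at hk
  obtain ⟨g, hg, rfl⟩ := hk
  have hg' := h hg
  obtain ⟨x, y, rfl⟩ := X_form hg
  rw [Tm.parts_neg_mk]
  exact andIn hΓ hq hg'

private def hn : ℕ → ℕ
  | 0 => 3
  | n + 1 => 4 * hn n + 3

private theorem three_le_hn (n : ℕ) : 3 ≤ hn n := by
  cases n with
  | zero => exact le_rfl
  | succ n => rw [hn]; omega

private theorem hn_mono {n m : ℕ} (h : n ≤ m) : hn n ≤ hn m := by
  induction h with
  | refl => exact le_rfl
  | step _ ih => rw [hn]; omega

private theorem hypT : ∀ (C : Line) (Δ : Line), (∀ t ∈ C, ∃ l, t = Tm.lit l) → XL C ⊆ Δ →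
    Nar D Δ → lsize Δ + 2 * C.length + 5 ≤ q → (∀ r ∈ xorC C, ∃ C₀ ∈ F, C₀ ⊆ r ++ Δ) →
    T F D q π Δ (hn C.length) := by
  intro C
  induction C with
  | nil =>
    intro Δ _ _ hΔ hq h
    obtain ⟨C₀, h1, h2⟩ := h [] (by simp [xorC])
    exact T.hyp hΔ (by omega) C₀ h1 h2 (by rw [List.length_nil, hn]; omega)
  | cons t C ih =>
    intro Δ hC hX hΔ hq h
    obtain ⟨l, rfl⟩ := hC t List.mem_cons_self
    obtain ⟨w, s⟩ := l
    rw [XL_cons] at hX
    rw [List.length_cons] at hq
    rw [List.length_cons, hn]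
    refine fourLit hΔ (by omega) (w := w) (s := s) ?_ ?_
    · intro k hk
      obtain ⟨x, y, hxy⟩ := X_form hk
      have hkp : k.parts = [Tm.lit x, Tm.lit y] := by rw [hxy, Tm.parts_mk]
      have hs : lsize (k.parts ++ Δ) = lsize Δ + 2 := by
        rw [hkp]
        show lsize (Tm.lit x :: Tm.lit y :: Δ) = _
        rw [lsize_lit, lsize_lit]
      refine ih (k.parts ++ Δ) (fun t ht => hC t (List.mem_cons_of_mem _ ht)) ?_ ?_
        (by rw [hs]; omega) ?_
      · intro u hu
        exact List.mem_append_right _ (hX (List.mem_append_right _ hu))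
      · rw [hkp]
        exact nar_lit _ (nar_lit _ hΔ)
      · intro r hr
        obtain ⟨C₀, h1, h2⟩ := h (k.parts ++ r)
          (List.mem_flatMap.2 ⟨k, hk, List.mem_map_of_mem hr⟩)
        refine ⟨C₀, h1, fun u hu => ?_⟩
        have h3 := h2 hu
        simp only [List.mem_append] at h3 ⊢
        tauto
    · intro k hk
      refine (andX (l := (w, s)) hΔ (by omega) ?_ hk).le (three_le_hn _)
      intro u hu
      exact hX (List.mem_append_left _ hu)

/-- One step of the translation. -/
private theorem xstep {F : Fml} (hF : Cnf 3 F) (hD : 1 ≤ D) {π' π : List Line}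
    (hinv : ∀ M ∈ π, Has π' (XL M)) {L : Line} (hL : Step F π L) (hh : ∀ t ∈ L, t.ht < D)
    (hq : 6 * lsize L + 20 ≤ q) : T (xorF F) D q π' (XL L) (255 + 4 * q) := by
  have hX : Nar D (XL L) := nar_XL hh
  have hXs : lsize (XL L) ≤ 6 * lsize L := lsize_XL L
  have hHas : ∀ Y : Line, Has π (Y ++ L) → Has π' (XL Y ++ XL L) := by
    intro Y ⟨M, hM, hMY⟩
    refine (hinv M hM).mono ?_
    rw [← XL_append]
    exact XL_subset hMY
  cases hL with
  | ax w h1 h2 =>
    refine (fourLit hX (by omega) (w := w) (s := true) (N := 3) ?_ ?_).le (by omega)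
    · intro k hk
      exact andX (l := (w, false)) hX (by omega) (fun u hu => mem_XL h2 hu) hk
    · intro k hk
      exact andX (l := (w, true)) hX (by omega) (fun u hu => mem_XL h1 hu) hk
  | hyp C hC h =>
    have h1 : ∀ t ∈ C, ∃ l, t = Tm.lit l := by
      intro t ht
      have h2 := hF.1 C hC t ht
      cases t with
      | lit l => exact ⟨l, rfl⟩
      | node n f => rw [Tm.ht_node] at h2; omega
    have h2 : C.length ≤ 3 := hF.2 C hC
    have h3 := hypT (F := xorF F) (D := D) (q := q) (π := π') C (XL L) h1 (XL_subset h) hX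
      (by omega) fun r hr => ⟨r, List.mem_flatMap.2 ⟨C, hC, hr⟩, List.subset_append_left _ _⟩
    refine h3.le ?_
    have h4 := hn_mono h2
    have h5 : hn 3 = 255 := rfl
    omega
  | and n f h h' =>
    have hKX : Tm.mk (List.ofFn fun i => X (f i) (!true)).flatten ∈ XL L :=
      mem_XL h (by rw [X_node]; exact List.mem_singleton.2 rfl)
    have hKlen : (List.ofFn fun i => X (f i) (!true)).flatten.length + 1 ≤ q := by
      have h1 := size_le_lsize hKX
      have h2 := Tm.n_lt_size (List.ofFn fun i => X (f i) (!true)).flatten.length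
        (List.ofFn fun i => X (f i) (!true)).flatten.get
      rw [Tm.mk] at h1
      omega
    refine T.and hX (by omega) _ hKX 4 ?_ (by omega)
    intro k hk
    rw [List.mem_flatten] at hk
    obtain ⟨l, hl, hk⟩ := hk
    rw [List.mem_ofFn] at hl
    obtain ⟨i, rfl⟩ := hl
    have hi := hHas _ (h' i)
    cases hfi : f i with
    | lit x =>
      rw [hfi] at hi hk
      rw [Tm.parts_lit, XL_single] at hi
      exact litDown hD hX (by omega) x hi hk
    | node m' g =>
      rw [hfi] at hi hk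
      rw [X_node, List.mem_singleton] at hk
      subst hk
      rw [Tm.parts_mk]
      rw [Tm.parts_node, XL_ofFn] at hi
      exact T.has hi
  | cut t h1 h2 =>
    have hH1 := hHas [t] h1
    have hH2 := hHas _ h2
    rw [XL_single] at hH1
    cases t with
    | lit x =>
      obtain ⟨w, s⟩ := x
      rw [Tm.neg_lit, Tm.parts_lit, XL_single] at hH2
      refine (fourLit hX (by omega) (w := w) (s := s) (N := 4) ?_ ?_).le (by omega)
      · intro k hk
        exact litDown hD hX (by omega) _ hH1 hk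
      · intro k hk
        exact litDown hD hX (by omega) _ hH2 hk
    | node n f =>
      rw [X_node] at hH1
      have e : XL (Tm.node n f).neg.parts =
          (Tm.mk (List.ofFn fun i => X (f i) (!true)).flatten).neg.parts := by
        rw [Tm.parts_neg_mk, Tm.neg_node, Tm.parts_node, XL_ofFn, List.map_flatten,
          List.map_ofFn]
        congr 2
        funext i
        exact X_neg (f i) true
      rw [e] at hH2
      exact T.cut hX (by omega) _ (T.has (N := 0) hH1) (T.has (N := 0) hH2) (by omega)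

end

private theorem xor_all {F : Fml} (hF : Cnf 3 F) {D q : ℕ} (hD : 1 ≤ D) : ∀ π : List Line,
    IsProof F D π → (∀ M ∈ π, 6 * lsize M + 20 ≤ q) →
    ∃ ρ, PN (xorF F) D ρ ∧ (∀ M ∈ π, Has ρ (XL M)) ∧
      psize ρ ≤ π.length * ((255 + 4 * q) * q) := by
  intro π
  induction π with
  | nil => intro _ _; exact ⟨[], ⟨trivial, by simp⟩, by simp, by simp [psize]⟩
  | cons L π ih =>
    intro h hS
    obtain ⟨h1, h2, h3⟩ := h
    obtain ⟨ρ, g1, g2, g3⟩ := ih h1 (fun M hM => hS M (List.mem_cons_of_mem _ hM))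
    have hT := xstep hF hD g2 h2 h3 (hS L List.mem_cons_self)
    obtain ⟨δ, k1, k2, k3⟩ := hT.run [] (by simpa using g1)
    rw [List.nil_append] at k1 k2
    refine ⟨δ ++ ρ, k1, ?_, ?_⟩
    · intro M hM
      rw [List.mem_cons] at hM
      rcases hM with rfl | hM
      · exact k2
      · exact (g2 M hM).ext δ
    · rw [psize_append, List.length_cons, Nat.add_mul, Nat.one_mul]
      omega

theorem xor_up {F : Fml} (hF : Cnf 3 F) {D : ℕ} (hD : 1 ≤ D) {π : List Line} (h : Refutes F D π) :
    ∃ ρ, RefutesN (xorF F) (D + 1) 2 ρ ∧ psize ρ ≤ 10000 * (psize π + psize F) ^ 3 := by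
  have hs1 : 1 ≤ psize π := by
    have := lsize_lt_psize h.2
    omega
  obtain ⟨ρ, g1, g2, g3⟩ := xor_all hF (q := 6 * psize π + 20) hD π h.1 (by
    intro M hM
    have := lsize_lt_psize hM
    omega)
  refine ⟨ρ, ⟨⟨g1.1, ?_⟩, g1.2⟩, ?_⟩
  · obtain ⟨M, hM, hM'⟩ := g2 [] h.2
    rw [XL_nil] at hM'
    rwa [List.subset_nil.1 hM'] at hM
  · set s := psize π with hs
    have h1 : π.length ≤ s := length_le_psize π
    have h2 : 6 * s + 20 ≤ 26 * s := by omega
    have h3 : 255 + 4 * (6 * s + 20) ≤ 359 * s := by omega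
    calc psize ρ ≤ π.length * ((255 + 4 * (6 * s + 20)) * (6 * s + 20)) := g3
      _ ≤ s * ((359 * s) * (26 * s)) := Nat.mul_le_mul h1 (Nat.mul_le_mul h3 h2)
      _ = 9334 * s ^ 3 := by ring
      _ ≤ 10000 * (s + psize F) ^ 3 := Nat.mul_le_mul (by norm_num)
          (Nat.pow_le_pow_left (Nat.le_add_right _ _) 3)

end Pool.Agent.H80.HS
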