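import Mathlib
import Pool.Agent.H80.HS.Dist
import Pool.Agent.H80.HS.XorUp
import Pool.Agent.H80.HS.Restr
import Pool.Agent.H80.HS.Kill
import Pool.Agent.H80.HS.Nar
import Pool.Agent.H80.HS.XR
import Pool.Agent.H80.HS.Grow

set_option autoImplicit false

/-!
Half steps: the three implications.
-/

namespace Pool.Agent.H80.HS

open Pool.Agent.H75.DH

theorem isLit_of_depth {F : Fml} (hF : DepthLE 2 F) : ∀ C ∈ F, ∀ t ∈ C, t.isLit = true := by
  intro C hC t ht
  have := hF C hC t ht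
  cases t with
  | lit l => rfl
  | node n f => rw [Tm.ht_node] at this; omega

/-! ### From (i) to (ii) -/

/-- A refutation of the new formula with small bottom fan-in gives a refutation of `F` of the same
depth. -/
theorem hardN_new {F : Fml} (hF : DepthLE 2 F) {π : List Line} {d k : ℕ} (hd : 1 ≤ d)
    {ρ : List Line} (hρ : RefutesN (new F π) (d + 1) k ρ) :
    ∃ ρ', Refutes F (d + 1) ρ' ∧
      psize ρ' ≤ psize ρ * (10 * (BB (2 * (psize π + psize F)) k * psize ρ) ^ 3) := by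
  set N := psize π + psize F with hN
  set E := gates π ++ gates F with hE
  have hEs : csize E ≤ N := by
    have h2 := csize_gates π
    have h3 := csize_gates F
    rw [hE, csize_append]
    omega
  have hlen : ∀ l ∈ allZ E F, l.length ≤ 2 * N := by
    intro l hl
    have := length_le_of_allZ hl
    omega
  have hnew : ThreeCnf (new F π) := three_three eV eZ _ hF
  obtain ⟨ρ', k1, k2, k3⟩ := dist (sg (allZ E F)) k (F := F) (F' := new F π) (m := 2 * N) hd
    (fun w l hw => hlen l (mem_of_sg hw)) (isLit_of_depth hnew.1)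
    (three_subst eV eZ F E (sg (allZ E F)) (sg_eV _) (fun l hl => sg_eZ hl) hlen
      (fun C hC t ht l hl => List.mem_append_right _ (mem_gates hC ht hl)))
    (S := psize ρ) ρ hρ.1.1 (fun M hM t ht => hρ.2 M hM t ht) (fun M hM => lsize_lt_psize hM)
  refine ⟨ρ', ⟨k1, has_nil (k2 [] hρ.1.2)⟩, k3.trans ?_⟩
  exact Nat.mul_le_mul_right _ (length_le_psize ρ)

theorem arith (m k s : ℕ) : s * (10 * (BB m k * s) ^ 3) ≤
    ((k + 2) * (m + 2)) ^ (5 * (k + 2)) * (s + 1) ^ 5 := by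
  set A := (k + 2) * (m + 2) with hA
  have hA4 : 4 ≤ A := by
    rw [hA]
    calc 4 = 2 * 2 := rfl
      _ ≤ (k + 2) * (m + 2) := Nat.mul_le_mul (by omega) (by omega)
  have hB : BB m k ≤ A ^ (k + 2) := by
    rw [BB, pow_succ A]
    refine Nat.mul_le_mul (Nat.pow_le_pow_left ?_ _) ?_
    · rw [hA]
      exact Nat.le_mul_of_pos_left _ (by omega)
    · rw [hA]
      nlinarith [Nat.zero_le k, Nat.zero_le m, Nat.zero_le (k * m)]
  have h10 : 10 ≤ A ^ 2 := by nlinarith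
  have h1 : 10 * BB m k ^ 3 ≤ A ^ (5 * (k + 2)) := by
    calc 10 * BB m k ^ 3 ≤ A ^ 2 * (A ^ (k + 2)) ^ 3 :=
          Nat.mul_le_mul h10 (Nat.pow_le_pow_left hB 3)
      _ = A ^ (2 + (k + 2) * 3) := by rw [← pow_mul, ← pow_add]
      _ ≤ A ^ (5 * (k + 2)) := Nat.pow_le_pow_right (by omega) (by omega)
  have h2 : s ^ 4 ≤ (s + 1) ^ 5 := by
    calc s ^ 4 ≤ (s + 1) ^ 4 := Nat.pow_le_pow_left (by omega) 4
      _ ≤ (s + 1) ^ 5 := Nat.pow_le_pow_right (by omega) (by norm_num)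
  calc s * (10 * (BB m k * s) ^ 3) = (10 * BB m k ^ 3) * s ^ 4 := by ring
    _ ≤ A ^ (5 * (k + 2)) * (s + 1) ^ 5 := Nat.mul_le_mul h1 h2

theorem one_two {d e : ℕ} (hd : 1 ≤ d) (he : 1 ≤ e)
    (h : Stronger (DepthLE 2) (d + 1) (e + 1)) : StrongerThanNarrow (d + 1) e := by
  obtain ⟨F, c, ε, hε, h1, h2, n₀, h3⟩ := h
  choose π hπ hπs using h2
  have ht := fun n => easy_new he (hπ n)
  choose ρ hρ hρs using ht
  obtain ⟨c₁, hc₁, hb1⟩ := poly_bound 63 4 c
  obtain ⟨c₂, _, hb2⟩ := poly_bound 2 1 c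
  have hNle : ∀ n, psize (π n) + psize (F n) ≤ 2 * (n ^ c + c) := by
    intro n
    have a1 := (h1 n).2.2
    have a2 := hπs n
    omega
  refine ⟨fun n => new (F n) (π n), c₁, ε / 4, by positivity, ?_, ?_, ?_⟩
  · intro n
    refine ⟨three_three eV eZ _ (h1 n).1, unsat_of_refutes (hρ n), ?_⟩
    refine le_trans ?_ (hb1 n)
    have a1 := psize_new (F n) (π n)
    beta_reduce
    have a2 := hNle n
    have a3 : 2 * (n ^ c + c) + 1 ≤ (2 * (n ^ c + c) + 1) ^ 4 := Nat.le_self_pow (by norm_num) _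
    omega
  · intro n
    refine ⟨ρ n, hρ n, ?_⟩
    refine le_trans ?_ (hb1 n)
    refine (hρs n).trans (Nat.mul_le_mul_left 63 (Nat.pow_le_pow_left ?_ 4))
    have a2 := hNle n
    omega
  · obtain ⟨n₁, hn₁⟩ := grow_two c₂ 5 hε
    refine ⟨max n₀ n₁, fun n hn k τ hk hτ => ?_⟩
    by_contra hc
    push Not at hc
    obtain ⟨ρ', hρ', hs⟩ := hardN_new (h1 n).1 hd hτ
    have hm : 2 * (psize (π n) + psize (F n)) ≤ n ^ c₂ + c₂ := by
      refine le_trans ?_ (hb2 n)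
      have := hNle n
      rw [pow_one]
      omega
    have h4 := hn₁ n (le_trans (le_max_right _ _) hn) (psize τ) k _ hk hm hc
    have h5 := h3 n (le_trans (le_max_left _ _) hn) ρ' hρ'
    have h6 : ((psize ρ' : ℕ) : ℝ) ≤ (((k + 2) * (2 * (psize (π n) + psize (F n)) + 2)) ^
        (5 * (k + 2)) * (psize τ + 1) ^ 5 : ℕ) := by
      exact_mod_cast hs.trans (arith _ _ _)
    linarith

/-! ### From (ii) to (iii) -/

theorem length_flatMap_gts (L : Line) : (L.flatMap fun t => gts t true).length ≤ lsize L := by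
  induction L with
  | nil => simp [lsize_nil]
  | cons t L ih =>
    rw [List.flatMap_cons, List.length_append, lsize_cons]
    have := length_gts t true
    omega

theorem length_all_gts (π : List Line) :
    (π.flatMap fun L => L.flatMap fun t => gts t true).length ≤ psize π := by
  induction π with
  | nil => simp [psize_nil]
  | cons L π ih =>
    rw [List.flatMap_cons, List.length_append, psize_cons]
    have := length_flatMap_gts L
    omega

theorem kill_arith (s : ℕ) : s * 3 ^ (3 * (Nat.log 2 s + 1)) < 4 ^ (3 * (Nat.log 2 s + 1)) := by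
  set j := Nat.log 2 s + 1 with hj
  have h1 : s < 2 ^ j := Nat.lt_pow_succ_log_self (by norm_num) s
  rw [pow_mul, pow_mul]
  calc s * (3 ^ 3) ^ j < 2 ^ j * (3 ^ 3) ^ j := Nat.mul_lt_mul_of_pos_right h1 (by positivity)
    _ = (2 * 3 ^ 3) ^ j := by rw [mul_pow]
    _ ≤ (4 ^ 3) ^ j := Nat.pow_le_pow_left (by norm_num) j

/-- heights in a proof -/
theorem lineht {F : Fml} {d : ℕ} : ∀ {π : List Line}, IsProof F d π → ∀ L ∈ π, ∀ t ∈ L, t.ht < d := by
  intro π
  induction π with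
  | nil => intro _ L hL; simp at hL
  | cons M π ih =>
    intro h L hL
    rw [List.mem_cons] at hL
    rcases hL with rfl | hL
    · exact h.2.2
    · exact ih h.1 L hL

/-- A small refutation of `xorF F` gives a refutation of `F` with small bottom fan-in. -/
theorem hard_xor {F : Fml} (hF : Cnf 3 F) {d : ℕ} (hd : 2 ≤ d) {π : List Line}
    (hπ : Refutes (xorF F) d π) :
    ∃ ρ, RefutesN F d (6 * (Nat.log 2 (psize π) + 1)) ρ ∧ psize ρ ≤ psize π + 2 := by
  set s := psize π with hs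
  set w := 3 * (Nat.log 2 s + 1) with hw
  set E := π.flatMap fun L => L.flatMap fun t => gts t true with hE
  have hE1 : E.length ≤ s := length_all_gts π
  have hE2 : E.length * 3 ^ w < 4 ^ w :=
    lt_of_le_of_lt (Nat.mul_le_mul_right _ hE1) (kill_arith s)
  obtain ⟨ω, hω⟩ := exists_kill E w hE2
  obtain ⟨ρ, g1, g2, g3, g4⟩ := restr (tau ω) hd (xor_restr ω hF) π hπ.1
  have hnil : [] ∈ ρ := has_nil (g2 [] hπ.2)
  refine ⟨ρ, ⟨⟨g1, hnil⟩, ?_⟩, g3⟩
  have e6 : 6 * (Nat.log 2 s + 1) = 2 * w := by rw [hw]; ring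
  rw [e6]
  intro M hM t ht
  rcases g4 M hM with rfl | ⟨h1, L, hL, rfl⟩
  · rw [List.mem_singleton] at ht
    subst ht
    refine ⟨by omega, fun _ => Nat.zero_le _, fun i => ?_⟩
    exact i.elim0
  · obtain ⟨t0, ht0, htR⟩ := List.mem_flatMap.1 ht
    have hlt := lineht hπ.1 L hL t0 ht0
    rcases narrow_R ω w t0 true (d - 1) (by omega) (by
      intro g hg
      by_cases hgw : w ≤ nv g.2
      · right
        exact hω g (List.mem_flatMap.2 ⟨L, hL, List.mem_flatMap.2 ⟨t0, ht0, hg⟩⟩) hgw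
      · left
        omega) t htR with h | h
    · exact absurd (h ▸ ht) h1
    · exact h

theorem Narrow.mono {k k' : ℕ} (hk : k ≤ k') : ∀ {t : Tm} {h : ℕ}, Narrow k t h → Narrow k' t h := by
  intro t
  induction t with
  | lit l => intro h _; trivial
  | node n f ih =>
    intro h ht
    exact ⟨ht.1, fun h1 => (ht.2.1 h1).trans hk, fun i => ih i (ht.2.2 i)⟩

theorem half_of_narrow {d e : ℕ} (h : StrongerThanNarrow d e) : StrongerThanHalf d e := by
  obtain ⟨F, c, ε, hε, h1, h2, n₀, h3⟩ := h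
  refine ⟨F, c, ε, hε, h1, h2, n₀, fun n hn π hπ => ?_⟩
  by_contra hc
  push Not at hc
  have hpos : psize π ≠ 0 := by
    have := lsize_lt_psize hπ.1.2
    omega
  refine absurd (h3 n hn _ π ?_ hπ) (not_le.2 hc)
  have h4 : (2 : ℝ) ^ ((Nat.log 2 (psize π) : ℕ) : ℝ) < (2 : ℝ) ^ ((n : ℝ) ^ ε) := by
    rw [Real.rpow_natCast]
    refine lt_of_le_of_lt ?_ hc
    exact_mod_cast Nat.pow_log_le_self 2 hpos
  exact ((Real.rpow_lt_rpow_left_iff (by norm_num)).1 h4).le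

/-- padding -/
theorem pad {F : Fml} {d k : ℕ} (hd : 2 ≤ d) {ρ : List Line} (h : RefutesN F d k ρ) (m : ℕ) :
    RefutesN F d k (List.replicate m [Tm.mk []] ++ ρ) ∧
      psize (List.replicate m [Tm.mk []] ++ ρ) = 2 * m + psize ρ := by
  induction m with
  | zero => exact ⟨by simpa using h, by simp⟩
  | succ m ih =>
    obtain ⟨⟨⟨g1, g2⟩, g3⟩, g4⟩ := ih
    rw [List.replicate_succ, List.cons_append]
    refine ⟨⟨⟨⟨g1, ?_, ?_⟩, List.mem_cons_of_mem _ g2⟩, ?_⟩, ?_⟩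
    · exact Step.and 0 _ List.mem_cons_self fun i => i.elim0
    · intro t ht
      rw [List.mem_singleton] at ht
      subst ht
      have := Tm.ht_mk_le (L := []) (b := 0) (by simp)
      omega
    · intro L hL
      rw [List.mem_cons] at hL
      rcases hL with rfl | hL
      · intro t ht
        rw [List.mem_singleton] at ht
        subst ht
        exact ⟨by omega, fun _ => Nat.zero_le _, fun i => i.elim0⟩
      · exact g3 L hL
    · rw [psize_cons, g4, lsize_cons, lsize_nil, Tm.size_mk, lsize_nil]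
      ring

theorem grow_three {ε : ℝ} (hε : 0 < ε) : ∃ n₀ : ℕ, ∀ n : ℕ, n₀ ≤ n → ∀ s : ℕ,
    (s : ℝ) < (2 : ℝ) ^ ((n : ℝ) ^ (ε / 2)) →
      ((131 * (s + 1) ^ 6 : ℕ) : ℝ) < (2 : ℝ) ^ ((n : ℝ) ^ ε) := by
  have hδ : 0 < ε / 2 := by positivity
  have hx : Filter.Tendsto (fun n : ℕ => (n : ℝ) ^ (ε / 2)) Filter.atTop Filter.atTop :=
    (tendsto_rpow_atTop hδ).comp tendsto_natCast_atTop_atTop
  obtain ⟨n₀, hn₀⟩ := Filter.eventually_atTop.1 (hx.eventually_ge_atTop 9)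
  refine ⟨n₀, fun n hn s hs => ?_⟩
  have h2 := hn₀ n hn
  have h7 : (n : ℝ) ^ ε = (n : ℝ) ^ (ε / 2) * (n : ℝ) ^ (ε / 2) := by
    rw [← Real.rpow_add_of_nonneg (Nat.cast_nonneg n) hδ.le hδ.le]
    congr 1
    ring
  rw [h7]
  set x := (n : ℝ) ^ (ε / 2) with hxdef
  have h3 : (1 : ℝ) ≤ (2 : ℝ) ^ x := Real.one_le_rpow (by norm_num) (by linarith)
  have h4 : ((s : ℝ) + 1) ≤ (2 : ℝ) ^ (x + 1) := by
    rw [Real.rpow_add_one (by norm_num)]
    linarith
  have h5 : ((s : ℝ) + 1) ^ 6 ≤ ((2 : ℝ) ^ (x + 1)) ^ 6 := pow_le_pow_left₀ (by positivity) h4 6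
  have h6 : ((2 : ℝ) ^ (x + 1)) ^ 6 = (2 : ℝ) ^ ((x + 1) * 6) := by
    rw [Real.rpow_mul (by norm_num : (0 : ℝ) ≤ 2)]
    norm_cast
  have h8 : (131 : ℝ) < (2 : ℝ) ^ (8 : ℝ) := by norm_num
  have h9 : (131 : ℝ) * ((s : ℝ) + 1) ^ 6 < (2 : ℝ) ^ (8 : ℝ) * (2 : ℝ) ^ ((x + 1) * 6) := by
    rw [← h6]
    exact mul_lt_mul h8 h5 (by positivity) (by positivity)
  rw [← Real.rpow_add (by norm_num)] at h9
  have h10 : (2 : ℝ) ^ (8 + (x + 1) * 6) ≤ (2 : ℝ) ^ (x * x) :=
    Real.rpow_le_rpow_of_exponent_le (by norm_num) (by nlinarith)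
  push_cast
  linarith

theorem three_of_half {d e : ℕ} (hd : 2 ≤ d) (he : 1 ≤ e) (h : StrongerThanHalf d e) :
    NarrowStronger 6 2 d (e + 1) := by
  obtain ⟨F, c, ε, hε, h1, h2, n₀, h3⟩ := h
  choose π hπ hπs using h2
  have ht := fun n => xor_up (h1 n).1 he (hπ n)
  choose ρ hρ hρs using ht
  obtain ⟨c₁, hc₁, hb1⟩ := poly_bound 10000 3 c
  have hNle : ∀ n, psize (π n) + psize (F n) ≤ 2 * (n ^ c + c) := by
    intro n
    have a1 := (h1 n).2.2
    have a2 := hπs n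
    omega
  refine ⟨fun n => xorF (F n), c₁, ε / 2, by positivity, ?_, ?_, ?_⟩
  · intro n
    refine ⟨xor_cnf (h1 n).1, unsat_of_refutes (hρ n).1, ?_⟩
    refine le_trans ?_ (hb1 n)
    have a1 := xor_size (h1 n).1
    beta_reduce
    have a2 := hNle n
    have a3 : 2 * (n ^ c + c) + 1 ≤ (2 * (n ^ c + c) + 1) ^ 3 := Nat.le_self_pow (by norm_num) _
    omega
  · intro n
    refine ⟨ρ n, hρ n, ?_⟩
    refine le_trans ?_ (hb1 n)
    refine (hρs n).trans (Nat.mul_le_mul_left 10000 (Nat.pow_le_pow_left ?_ 3))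
    have a2 := hNle n
    omega
  · obtain ⟨n₁, hn₁⟩ := grow_three hε
    refine ⟨max n₀ n₁, fun n hn τ hτ => ?_⟩
    by_contra hc
    push Not at hc
    obtain ⟨σ, hσ, hs⟩ := hard_xor (h1 n).1 hd hτ
    have hpos : psize τ ≠ 0 := by
      have := lsize_lt_psize hτ.2
      omega
    set s := psize τ with hsdef
    set k := 6 * (Nat.log 2 s + 1) with hk
    obtain ⟨g1, g2⟩ := pad hd hσ (2 ^ k)
    have hlog : k ≤ Nat.log 2 (psize (List.replicate (2 ^ k) [Tm.mk []] ++ σ)) := by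
      refine Nat.le_log_of_pow_le (by norm_num) ?_
      rw [g2]
      omega
    have g3 : RefutesN (F n) d (Nat.log 2 (psize (List.replicate (2 ^ k) [Tm.mk []] ++ σ)))
        (List.replicate (2 ^ k) [Tm.mk []] ++ σ) :=
      ⟨g1.1, fun L hL t ht => (g1.2 L hL t ht).mono hlog⟩
    have h6 := h3 n (le_trans (le_max_left _ _) hn) _ g3
    have h5 := hn₁ n (le_trans (le_max_right _ _) hn) s hc
    have hk2 : 2 ^ k ≤ 64 * s ^ 6 := by
      have a1 : 2 ^ Nat.log 2 s ≤ s := Nat.pow_log_le_self 2 hpos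
      calc 2 ^ k = (2 ^ Nat.log 2 s * 2) ^ 6 := by rw [hk, mul_comm 6, pow_mul, pow_succ 2 (Nat.log 2 s)]
        _ ≤ (s * 2) ^ 6 := Nat.pow_le_pow_left (Nat.mul_le_mul_right _ a1) 6
        _ = 64 * s ^ 6 := by ring
    have h7 : psize (List.replicate (2 ^ k) [Tm.mk []] ++ σ) ≤ 131 * (s + 1) ^ 6 := by
      rw [g2]
      have a1 : s ^ 6 ≤ (s + 1) ^ 6 := Nat.pow_le_pow_left (by omega) 6
      have a2 : s + 1 ≤ (s + 1) ^ 6 := Nat.le_self_pow (by norm_num) _
      omega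
    have h8 : ((psize (List.replicate (2 ^ k) [Tm.mk []] ++ σ) : ℕ) : ℝ) ≤
        ((131 * (s + 1) ^ 6 : ℕ) : ℝ) := by exact_mod_cast h7
    linarith

theorem three_one {d e : ℕ} (h : NarrowStronger 6 2 d e) : Stronger (DepthLE 2) d e := by
  obtain ⟨F, c, ε, hε, h1, h2, h3⟩ := h
  refine ⟨F, c, ε, hε, fun n => ⟨(h1 n).1.1, (h1 n).2⟩, fun n => ?_, h3⟩
  obtain ⟨π, hπ, hs⟩ := h2 n
  exact ⟨π, hπ.1, hs⟩

end Pool.Agent.H80.HS
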